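import Pool.Agent.Helper63_DEN.Nrm
import Pool.Agent.Helper42_DEN.Trf

/-!
# Job RAM (helper6): levels with a part at the place `P`

`N = M L` with `M` prime to `P` and `L` a divisor of a power of `P`.  Then `Γ(N)` is the
intersection of `Γ_P(M)` and `Γ(L)`, and `Γ_P = Γ_P(M) Γ(L)`.
-/

set_option autoImplicit false

open scoped BigOperators

namespace Pool.Agent.DEN.H6

open Pool.Agent.DEN

section
variable {r : ℕ} {C : Matrix (Fin r) (Fin r) ℤ} {K : Type} [Field K]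

theorem cd_mono {S T : Set (FF K)} (h : ∀ a ∈ S, a ∈ T) {v : LieV C (FF K)} (hv : Cd S v) :
    Cd T v :=
  ⟨fun i => h _ (hv.1 i), fun γ => h _ (hv.2 γ)⟩

theorem triv_left {P M L : Polynomial K} {g : grp C K} (hg : TrivMod C K P (M * L) g) :
    TrivMod C K P M g := by
  intro v hv
  refine cd_mono ?_ (hg v hv)
  rintro a ⟨b, hb, rfl⟩
  exact ⟨polyL K L * b, (ringA K P).mul_mem (H63.polyL_mem P L) hb, by rw [map_mul, mul_assoc]⟩

theorem triv_right {P M L : Polynomial K} {g : grp C K} (hg : TrivMod C K P (M * L) g) :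
    TrivMod C K P L g := by
  rw [mul_comm] at hg
  exact triv_left hg

theorem triv_mul {P M L : Polynomial K} (hML : IsCoprime M L) {g : grp C K}
    (hM : TrivMod C K P M g) (hL : TrivMod C K P L g) : TrivMod C K P (M * L) g := by
  obtain ⟨u, w, huw⟩ := hML
  have huw' : polyL K u * polyL K M + polyL K w * polyL K L = 1 := by
    rw [← map_mul, ← map_mul, ← map_add, huw, map_one]
  have key : ∀ a : FF K, (∃ b ∈ ringA K P, a = polyL K M * b) →
      (∃ b ∈ ringA K P, a = polyL K L * b) → ∃ b ∈ ringA K P, a = polyL K (M * L) * b := by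
    rintro a ⟨b, hb, h1⟩ ⟨c, hc, h2⟩
    refine ⟨polyL K u * c + polyL K w * b, (ringA K P).add_mem
      ((ringA K P).mul_mem (H63.polyL_mem P u) hc) ((ringA K P).mul_mem (H63.polyL_mem P w) hb), ?_⟩
    rw [map_mul]
    calc a = (polyL K u * polyL K M + polyL K w * polyL K L) * a := by rw [huw', one_mul]
      _ = polyL K u * polyL K M * a + polyL K w * polyL K L * a := by ring
      _ = polyL K u * polyL K M * (polyL K L * c) + polyL K w * polyL K L * (polyL K M * b) := by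
          rw [← h1, ← h2]
      _ = _ := by ring
  intro v hv
  have h1 := hM v hv
  have h2 := hL v hv
  exact ⟨fun i => key _ (h1.1 i) (h2.1 i), fun γ => key _ (h1.2 γ) (h2.2 γ)⟩

theorem cop {P M L : Polynomial K} (hPM : IsCoprime P M) (hL : ∃ k, L ∣ P ^ k) :
    IsCoprime M L := by
  obtain ⟨k, hk⟩ := hL
  exact (IsCoprime.of_isCoprime_of_dvd_left (hPM.pow_left (m := k)) hk).symm

/-- the inverse of `L` lies in `A[1/P]`. -/
theorem inv_L {P L : Polynomial K} (hP : polyL K P ≠ 0) (hL : ∃ k, L ∣ P ^ k) :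
    (polyL K L)⁻¹ ∈ ringA K P := by
  obtain ⟨k, Q, hQ⟩ := hL
  have h1 : polyL K P ^ k = polyL K L * polyL K Q := by rw [← map_pow, hQ, map_mul]
  have h2 : polyL K L * polyL K Q ≠ 0 := by rw [← h1]; exact pow_ne_zero _ hP
  have h3 : (polyL K L)⁻¹ = (polyL K P)⁻¹ ^ k * polyL K Q := by
    rw [inv_pow, h1, mul_inv, mul_assoc, inv_mul_cancel₀ (right_ne_zero_of_mul h2), mul_one]
  rw [h3]
  exact (ringA K P).mul_mem ((ringA K P).pow_mem (H63.inv_mem_ringA P) k) (H63.polyL_mem P Q)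

theorem decompL (hC : SimplyLaced C) {P M L : Polynomial K}
    (h3 : ∀ a : FF K, a ∈ ringA K P →
      ∃ a0 ∈ ringA K 1, ∃ b ∈ ringA K P, a = polyL K L * a0 + polyL K M * b)
    {g : grp C K} (hg : g ∈ arith C K P) :
    ∃ γ ∈ cong C K P M, ∃ g0 ∈ cong C K 1 L, g = γ * g0 := by
  have hle : ∀ g0 ∈ cong C K 1 L, g0 ∈ arith C K P := fun g0 h0 => H63.arith_one_le P h0.1
  rw [arith_eq hC] at hg
  induction hg using Subgroup.closure_induction with
  | mem x hx =>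
    obtain ⟨β, a, ha, rfl⟩ := hx
    obtain ⟨a0, ha0, b, hb, rfl⟩ := h3 a ha
    refine ⟨xg hC β (polyL K M * b), H63.xg_cong hC β hb, xg hC β (polyL K L * a0),
      H63.xg_cong hC β ha0, ?_⟩
    rw [← xg_add, add_comm]
  | one => exact ⟨1, one_mem _, 1, one_mem _, by rw [mul_one]⟩
  | mul x y hx hy h1 h2 =>
    obtain ⟨γ₁, h11, g₁, h12, rfl⟩ := h1
    obtain ⟨γ₂, h21, g₂, h22, rfl⟩ := h2
    refine ⟨γ₁ * (g₁ * γ₂ * g₁⁻¹), mul_mem h11 (H63.conj_cong hC (hle _ h12) h21),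
      g₁ * g₂, mul_mem h12 h22, ?_⟩
    group
  | inv x hx h1 =>
    obtain ⟨γ₁, h11, g₁, h12, rfl⟩ := h1
    refine ⟨g₁⁻¹ * γ₁⁻¹ * (g₁⁻¹)⁻¹,
      H63.conj_cong hC (hle _ (inv_mem h12)) (inv_mem h11), g₁⁻¹, inv_mem h12, ?_⟩
    group

end

/-- (NRML) -/
theorem nrmL (hNrm : NrmStmt) (h2 : Fld2Stmt) (h3 : Fld3Stmt)
    {r : ℕ} (C : Matrix (Fin r) (Fin r) ℤ) (hC : SimplyLaced C) (K : Type) [Field K]
    (P M L : Polynomial K) (hP : P ≠ 0) (hM : M ≠ 0) (hPM : IsCoprime P M)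
    (hL : ∃ k, L ∣ P ^ k) :
    (cong C K 1 (M * L) ≤ cong C K P M) ∧ (cong C K 1 (M * L) ≤ cong C K 1 L) ∧
    (∀ γ ∈ cong C K P M, γ ∈ cong C K 1 L → γ ∈ cong C K 1 (M * L)) ∧
    (∀ g ∈ arith C K P, ∃ γ ∈ cong C K P M, ∃ g0 ∈ cong C K 1 L, g = γ * g0) := by
  obtain ⟨-, -, n3, n4, -, -⟩ := hNrm r C hC K P M hP hM hPM
  have hP' : polyL K P ≠ 0 := by
    intro h
    apply hP
    apply (h2 K).1
    rw [h, map_zero]
  refine ⟨fun γ hγ => n3 ⟨hγ.1, triv_left hγ.2.1, triv_left hγ.2.2⟩,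
    fun γ hγ => ⟨hγ.1, triv_right hγ.2.1, triv_right hγ.2.2⟩, ?_, ?_⟩
  · intro γ h4 h5
    have h6 := n4 γ h4 h5.1
    exact ⟨h5.1, triv_mul (cop hPM hL) h6.2.1 h5.2.1, triv_mul (cop hPM hL) h6.2.2 h5.2.2⟩
  · intro g hg
    refine decompL hC ?_ hg
    intro a ha
    have hLi := inv_L hP' hL
    have hL0 : polyL K L ≠ 0 := by
      obtain ⟨k, hk⟩ := hL
      intro h
      have h7 : L = 0 := (h2 K).1 (by rw [h, map_zero])
      rw [h7, zero_dvd_iff] at hk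
      exact pow_ne_zero k hP hk
    obtain ⟨a0, ha0, b, hb, hab⟩ := (h3 K P M hP).2.2 hPM _ ((ringA K P).mul_mem hLi ha)
    refine ⟨a0, ha0, polyL K L * b, (ringA K P).mul_mem (H63.polyL_mem P L) hb, ?_⟩
    have h8 : a = polyL K L * ((polyL K L)⁻¹ * a) := by
      rw [← mul_assoc, mul_inv_cancel₀ hL0, one_mul]
    rw [h8, hab]
    ring

/-! ## Hecke functions of level `L` at `P` -/

section
variable {r : ℕ} {C : Matrix (Fin r) (Fin r) ℤ} {K : Type} [Field K]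

/-- `κ` is a Hecke function of level `L` and radius `R` at the place `P` (working version). -/
def HeckeLev (P L : Polynomial K) (κ : arith C K P → ℂ) (R : ℕ) : Prop :=
  (∀ k ∈ (cong C K 1 L).subgroupOf (arith C K P), ∀ g, κ (k * g) = κ g ∧ κ (g * k) = κ g) ∧
  {y : (arith C K P) ⧸ (cong C K 1 L).subgroupOf (arith C K P) | κ y.out ≠ 0}.Finite ∧
  (∀ g, κ g ≠ 0 → ∀ v : LieV C (FF K), Cd (ringA K 1) v →
    Cd (ringA K 1) (polyL K P ^ R • (g.1.1 v)) ∧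
    Cd (ringA K 1) (polyL K P ^ R • ((g⁻¹).1.1 v)))

/-- `T_κ f = lam f` for the Hecke function `κ` of level `L` at the place `P`, for the level `M L`
(working version). -/
def EigenLev (P M L : Polynomial K) (κ : arith C K P → ℂ) (lam : ℂ) (f : XX C K → ℂ) : Prop :=
  ∀ x, ∑ᶠ δ : (cong C K P M) ⧸ (cong C K 1 (M * L)).subgroupOf (cong C K P M),
    κ ⟨δ.out.1, δ.out.2.1⟩ * f ((δ.out.1)⁻¹ • x) = lam * f x

end

/-- (TRFL) -/
theorem trfL (hNrm : NrmStmt) (h2 : Fld2Stmt) (h3 : Fld3Stmt)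
    {r : ℕ} (C : Matrix (Fin r) (Fin r) ℤ) (hC : SimplyLaced C) (K : Type) [Field K]
    (P M L : Polynomial K) (hP : P ≠ 0) (hM : M ≠ 0) (hPM : IsCoprime P M)
    (hL : ∃ k, L ∣ P ^ k) (κ : arith C K P → ℂ) (R : ℕ) (hH : HeckeLev P L κ R) :
    (∀ k ∈ (cong C K 1 (M * L)).subgroupOf (cong C K P M), ∀ g : cong C K P M,
      κ ⟨(k * g).1, (k * g).2.1⟩ = κ ⟨g.1, g.2.1⟩ ∧ κ ⟨(g * k).1, (g * k).2.1⟩ = κ ⟨g.1, g.2.1⟩) ∧
    {y : (cong C K P M) ⧸ (cong C K 1 (M * L)).subgroupOf (cong C K P M) |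
      κ ⟨y.out.1, y.out.2.1⟩ ≠ 0}.Finite ∧
    normSq ((cong C K 1 (M * L)).subgroupOf (cong C K P M)) (fun δ => κ ⟨δ.1, δ.2.1⟩) =
      normSq ((cong C K 1 L).subgroupOf (arith C K P)) κ ∧
    ∀ τ : ℝ, NormLE ((cong C K 1 L).subgroupOf (arith C K P)) κ τ →
      NormLE ((cong C K 1 (M * L)).subgroupOf (cong C K P M))
        (fun δ : cong C K P M => κ ⟨δ.1, δ.2.1⟩) τ := by
  obtain ⟨n1, n2, n3, n4⟩ := nrmL hNrm h2 h3 C hC K P M L hP hM hPM hL
  have hMA : cong C K P M ≤ arith C K P := fun g hg => hg.1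
  obtain ⟨hκ, hfin, _⟩ := hH
  refine ⟨?_, ?_, ?_, ?_⟩
  · intro k hk g
    have hk' : Subgroup.inclusion hMA k ∈ (cong C K 1 L).subgroupOf (arith C K P) := by
      rw [Subgroup.mem_subgroupOf]
      exact n2 (Subgroup.mem_subgroupOf.1 hk)
    exact hκ _ hk' (Subgroup.inclusion hMA g)
  · have h6 : {y : (cong C K P M) ⧸ (cong C K 1 (M * L)).subgroupOf (cong C K P M) |
        κ ⟨y.out.1, y.out.2.1⟩ ≠ 0} = H42.emap hMA (cong C K 1 L) (cong C K 1 (M * L)) ⁻¹'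
        {y : (arith C K P) ⧸ (cong C K 1 L).subgroupOf (arith C K P) | κ y.out ≠ 0} := by
      ext y
      simp only [Set.mem_ofPred_eq, Set.mem_preimage]
      rw [H42.kernel_emap_one hMA hκ]
      exact Iff.rfl
    rw [h6]
    exact hfin.preimage ((H42.emap_injective hMA n3).injOn)
  · exact H42.normSq_emap hMA hκ n2 n3 n4
  · intro τ hτ
    exact H42.normLE_emap hMA hκ n3 hτ

end Pool.Agent.DEN.H6
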