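import Pool.Agent.Helper26_DEN.Thi
import Pool.Agent.Helper6_RAM.Nrm

/-!
# Job RAM (helper6): the pointwise bound for a kernel of level `L` at `P`
-/

set_option autoImplicit false

open scoped BigOperators

namespace Pool.Agent.DEN.H6

open Pool.Agent.DEN

theorem thfL (hBes : BesStmt) (hScs : ScsStmt) (hBdg : BdgStmt) (hNrm : NrmStmt) (hFin : FinStmt)
    (hFsp : FspStmt) (h2 : Fld2Stmt) (h3 : Fld3Stmt)
    {r : ℕ} (C : Matrix (Fin r) (Fin r) ℤ) (hC : SimplyLaced C) (K : Type) [Field K] [Finite K]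
    (P M L : Polynomial K) (hP : P ≠ 0) (hM : M ≠ 0) (hPM : IsCoprime P M)
    (hL : ∃ k, L ∣ P ^ k) (hN : M * L ≠ 0) (n : ℕ) (f : Fin n → XX C K → ℂ)
    (hcusp : ∀ j, IsCusp (M * L) (f j))
    (hpet : ∀ i j, petersson (M * L) (f i) (f j) = if i = j then 1 else 0)
    (ρ : ℕ) (hρ : 2 * ρ * P.natDegree < M.natDegree)
    (c : (cong C K P M) ⧸ (cong C K 1 (M * L)).subgroupOf (cong C K P M) → ℂ)
    (hcf : (Function.support c).Finite)
    (hc : ∀ y, c y ≠ 0 → ∃ a : cong C K P M, y = QuotientGroup.mk a ∧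
      ∀ v : LieV C (FF K), Cd (ringA K 1) v →
        Cd (ringA K 1) (polyL K P ^ ρ • (a.1.1 v)) ∧
        Cd (ringA K 1) (polyL K P ^ ρ • ((a⁻¹).1.1 v)))
    (mu : Fin n → ℂ) (hmu : ∀ j x, ∑ᶠ δ, c δ * f j ((δ.out.1)⁻¹ • x) = mu j * f j x)
    (γ : grp C K) (hγ : γ ∈ arith C K 1) (l : Fin r → ℤ) (g : grp C K) (hg : IsTor l g)
    (hl : IsDom C l) :
    ∑ j, ‖mu j‖ ^ 2 * ‖f j (γ • pt g)‖ ^ 2 ≤
      (∑ᶠ y, ‖c y‖ ^ 2) * (Nat.card K : ℝ) ^ dep C l := by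
  classical
  have hBd := hBdg r C hC K
  have hNr1 := hNrm r C hC K 1 (M * L) one_ne_zero hN isCoprime_one_left
  have hNr := hNrm r C hC K P M hP hM hPM
  obtain ⟨n1, n2, n3, n4⟩ := nrmL hNrm h2 h3 C hC K P M L hP hM hPM hL
  obtain ⟨-, hst, -⟩ := hFin r C hC K
  set B : ℕ := Nat.card K ^ dep C l with hB0
  let Y := (cong C K P M) ⧸ (cong C K 1 (M * L)).subgroupOf (cong C K P M)
  have hout : ∀ y ∈ hcf.toFinset, ∀ v : LieV C (FF K), Cd (ringA K 1 : Set (FF K)) v →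
      Cd (ringA K 1 : Set (FF K)) (polyL K P ^ ρ • ((y : Y).out.1.1 v)) ∧
      Cd (ringA K 1 : Set (FF K)) (polyL K P ^ ρ • (((y : Y).out⁻¹).1.1 v)) := by
    intro y hy v hv
    obtain ⟨a, hya, ha⟩ := hc y (by rw [Set.Finite.mem_toFinset] at hy; exact hy)
    obtain ⟨h, hh⟩ := QuotientGroup.mk_out_eq_mul
      ((cong C K 1 (M * L)).subgroupOf (cong C K P M)) a
    rw [← hya] at hh
    have hh1 : h.1.1 ∈ cong C K 1 (M * L) := Subgroup.mem_subgroupOf.mp h.2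
    constructor
    · have h1 : (y : Y).out.1.1 v = a.1.1 (h.1.1.1 v) := by
        rw [hh]; rfl
      rw [h1]
      exact (ha _ (hNr1.2.2.2.2.2 _ hh1.1 v hv)).1
    · have h1 : ((y : Y).out⁻¹).1.1 v = (h.1.1⁻¹ : grp C K).1 ((a⁻¹).1.1 v) := by
        rw [hh, mul_inv_rev]; rfl
      rw [h1, ← map_smul]
      exact hNr1.2.2.2.2.2 _ (inv_mem hh1.1) _ (ha v hv).2
  have key : ∀ i ∈ hcf.toFinset, ∀ Q : Finset (cong C K 1 (M * L) × Y),
      (∀ p ∈ Q, p.2 ∈ hcf.toFinset ∧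
        p.1 • (((i : Y).out.1)⁻¹ • (γ • pt g)) = ((p.2 : Y).out.1)⁻¹ • (γ • pt g)) →
        Q.card ≤ B := by
    intro y hy Q hQ
    let s0 : cong C K 1 (M * L) × Y → grp C K :=
      fun p => (p.2 : Y).out.1 * p.1.1 * (y : Y).out.1⁻¹
    let φ : cong C K 1 (M * L) × Y → grp C K := fun p => γ⁻¹ * s0 p * γ
    have hs0 : ∀ p ∈ Q, s0 p ∈ cong C K P M := by
      intro p hp
      exact mul_mem (mul_mem (p.2 : Y).out.2 (n1 p.1.2)) (inv_mem (y : Y).out.2)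
    have hinj : Set.InjOn φ (Q : Set (cong C K 1 (M * L) × Y)) := by
      intro p hp p' hp' h
      have h1 : s0 p = s0 p' := mul_left_cancel (mul_right_cancel h)
      have h2 : (p.2 : Y).out.1 * p.1.1 = (p'.2 : Y).out.1 * p'.1.1 := mul_right_cancel h1
      have h3 : p.2 = p'.2 := by
        rw [← QuotientGroup.out_eq' p.2, ← QuotientGroup.out_eq' p'.2]
        rw [QuotientGroup.eq, Subgroup.mem_subgroupOf]
        have h4 : (((p.2 : Y).out⁻¹ * (p'.2 : Y).out : cong C K P M) : grp C K) =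
            p.1.1 * p'.1.1⁻¹ := by
          push_cast
          rw [eq_mul_inv_iff_mul_eq, mul_assoc, ← h2]
          group
        rw [h4]
        exact mul_mem p.1.2 (inv_mem p'.1.2)
      rw [h3] at h2
      exact Prod.ext (Subtype.ext (mul_left_cancel h2)) h3
    rw [← Finset.card_image_of_injOn hinj]
    refine hScs r C hC K P M hP hM hPM l g hg hl 0 (2 * ρ)
      (by simpa using hρ) (Q.image φ) ?_ ?_ ?_
    · intro s hs
      obtain ⟨p, hp, rfl⟩ := Finset.mem_image.mp hs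
      have := hNr.1 γ⁻¹ (hNr.2.1 (inv_mem hγ)) _ (hs0 p hp)
      rwa [inv_inv] at this
    · intro s hs
      obtain ⟨p, hp, rfl⟩ := Finset.mem_image.mp hs
      obtain ⟨hp1, hp2⟩ := hQ p hp
      have h1 : (QuotientGroup.mk (p.1.1 * ((y : Y).out.1⁻¹ * (γ * g))) : XX C K) =
          QuotientGroup.mk ((p.2 : Y).out.1⁻¹ * (γ * g)) := hp2
      have h2 := QuotientGroup.eq.mp h1.symm
      have h3 := ((hBd.2.2 _).mp h2).1
      have h4 : g⁻¹ * (γ⁻¹ * s0 p * γ) * g =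
          ((p.2 : Y).out.1⁻¹ * (γ * g))⁻¹ * (p.1.1 * ((y : Y).out.1⁻¹ * (γ * g))) := by
        simp only [s0]
        group
      show bnd ((0 : ℕ) : ℤ) (g⁻¹ * (γ⁻¹ * s0 p * γ) * g)
      rw [h4]
      exact h3
    · intro s hs v hv
      obtain ⟨p, hp, rfl⟩ := Finset.mem_image.mp hs
      obtain ⟨hp1, hp2⟩ := hQ p hp
      have h1 : Cd (ringA K 1 : Set (FF K)) (γ.1 v) := hNr1.2.2.2.2.2 _ hγ v hv
      have h2 := (hout y hy _ h1).2
      have h3 := hNr1.2.2.2.2.2 _ p.1.2.1 _ h2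
      have h4 := (hout p.2 hp1 _ h3).1
      have h5 := hNr1.2.2.2.2.2 _ (inv_mem hγ) _ h4
      have h6 : polyL K P ^ (2 * ρ) • (φ p).1 v = (γ⁻¹ : grp C K).1 (polyL K P ^ ρ •
          ((p.2 : Y).out.1.1 (p.1.1.1 (polyL K P ^ ρ • (((y : Y).out⁻¹).1.1 (γ.1 v)))))) := by
        rw [map_smul, map_smul, map_smul, map_smul, smul_smul, ← pow_add, two_mul]
        rfl
      rw [h6]
      exact h5
  have hB := hBes (cong C K 1 (M * L)) (XX C K) (fun x => hst (M * L) x) n f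
    (fun j γ x => (hcusp j).1 γ.1 γ.2 x)
    (fun j => hFsp r C hC K (M * L) hN (f j) (hcusp j))
    hpet Y hcf.toFinset (fun δ => ((δ : Y).out.1)⁻¹ • (γ • pt g)) c B key
  have h1 : ∀ j, ∑ y ∈ hcf.toFinset, c y * f j (((y : Y).out.1)⁻¹ • (γ • pt g)) =
      mu j * f j (γ • pt g) := by
    intro j
    rw [← H26.finsum_S c (fun y => f j (((y : Y).out.1)⁻¹ • (γ • pt g))) hcf, hmu j (γ • pt g)]
  have h2 : ∀ j, ‖mu j‖ ^ 2 * ‖f j (γ • pt g)‖ ^ 2 =
      ‖∑ y ∈ hcf.toFinset, c y * f j (((y : Y).out.1)⁻¹ • (γ • pt g))‖ ^ 2 := by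
    intro j
    rw [h1, norm_mul, mul_pow]
  rw [H26.finsum_N c hcf, Finset.sum_congr rfl fun j _ => h2 j]
  refine hB.trans_eq ?_
  rw [hB0]
  push_cast
  ring

end Pool.Agent.DEN.H6
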