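import Pool.Agent.Helper22_DEN.Asm
import Pool.Agent.Helper6_RAM.Thf

/-!
# Job RAM (helper6): the density theorem for Hecke functions of level `L` at `P`
-/

set_option autoImplicit false

open scoped BigOperators

namespace Pool.Agent.DEN.H6

open Pool.Agent.DEN

theorem densL (q D W n : ℕ) (B τ σ : ℝ) (hq : 1 < q) (hW : 0 < W) (hD : 0 < D) (hτ : 0 < τ)
    (hσ : 0 ≤ σ) (lam : Fin n → ℂ)
    (hl : ∀ j, (q : ℝ) ^ (σ * W) * τ ≤ ‖lam j‖)
    (H : ∀ m : ℕ, 2 * (m * W) < D →
      ∑ j, ‖lam j ^ m‖ ^ 2 ≤ B * τ ^ (2 * m)) :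
    (n : ℝ) ≤ B * (q : ℝ) ^ (-(σ * ((D : ℝ) - 2 * W))) := by
  have h := H22.dens q D W 0 n B τ σ hq hW hD hτ hσ lam hl (fun m hm => by
    rw [pow_zero, one_mul]
    exact H m hm)
  rwa [pow_zero, one_mul] at h

section
variable {r : ℕ} {C : Matrix (Fin r) (Fin r) ℤ} {K : Type} [Field K]

/-- The trivial bound for the number of cusp forms. -/
theorem trivial_bound [Finite K] (hr : 0 < r) (hC : SimplyLaced C)
    (N : Polynomial K) (hN : N ≠ 0) (n : ℕ) (f : Fin n → XX C K → ℂ)
    (hcusp : ∀ j, IsCusp N (f j))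
    (horth : ∀ i j, petersson N (f i) (f j) = if i = j then 1 else 0) :
    (n : ℝ) ≤ (N.natDegree : ℝ) ^ r * (cong C K 1 N).relIndex (arith C K 1) := by
  classical
  have hone : ∀ j, petersson N (f j) (f j) = 1 := fun j => by rw [horth, if_pos rfl]
  by_cases hD : N.natDegree = 0
  · have := H22.n_zero H22.hBir H22.hVan hr hC N hN hD n f hcusp hone
    subst this
    simp only [Nat.cast_zero]
    positivity
  · have h1 := H22.hCnt r C hC K hr N hN n f hcusp hone (fun _ => 1) (fun _ => zero_le_one) 1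
      zero_le_one ?_
    · simpa using h1
    · intro γ hγ l g hg hl
      have hsupp : Function.support (fun y : XX C K => if y = pt 1 then (1 : ℂ) else 0) ⊆
          {pt (1 : grp C K)} := by
        intro y hy
        by_contra hne
        exact hy (if_neg hne)
      have h2 := H22.hThi r C hC K N hN n f hcusp horth 0 (by omega)
        (fun y => if y = pt 1 then 1 else 0)
        ((Set.finite_singleton _).subset hsupp) ?_ (fun _ => 1) ?_ γ hγ l g hg hl
      · refine le_trans (le_of_eq ?_) (le_trans h2 (le_of_eq ?_))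
        · simp
        · congr 1
          rw [finsum_eq_single _ (pt (1 : grp C K))]
          · simp
          · intro y hy
            rw [if_neg hy]
            simp
      · intro y hy
        have hy1 : y = pt 1 := by
          by_contra hne
          exact hy (if_neg hne)
        have h3 := ((H22.hBdg r C hC K).2.2 (1 : grp C K)).mp (one_mem _)
        exact ⟨1, hy1, by simpa using h3.1, by simpa using h3.2⟩
      · intro j g'
        rw [finsum_eq_single _ (pt (1 : grp C K))]
        · have h2 : (g' • (QuotientGroup.mk 1 : XX C K)) = pt g' := by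
            show (QuotientGroup.mk (g' * 1) : XX C K) = QuotientGroup.mk g'
            rw [mul_one]
          rw [if_pos rfl]
          exact congrArg (fun z => 1 * f j z) h2
        · intro y hy
          rw [if_neg hy, zero_mul]

/-- (MAIN) the density theorem for Hecke functions of level `L` at `P`. -/
theorem finL [Finite K] (hr : 0 < r) (hC : SimplyLaced C)
    (P M L : Polynomial K) (hP : 0 < P.natDegree) (hPM : IsCoprime P M)
    (hL : ∃ k, L ∣ P ^ k) (hN : M * L ≠ 0) (n : ℕ) (f : Fin n → XX C K → ℂ)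
    (hcusp : ∀ j, IsCusp (M * L) (f j))
    (horth : ∀ i j, petersson (M * L) (f i) (f j) = if i = j then 1 else 0) (lam : Fin n → ℂ)
    (R : ℕ) (hR : 0 < R)
    (κ : arith C K P → ℂ) (hκ : HeckeLev P L κ R)
    (hlam : ∀ j, EigenLev P M L κ (lam j) (f j)) :
    (2 * (R * P.natDegree) < M.natDegree → ∑ j, ‖lam j‖ ^ 2 ≤
      ((M * L).natDegree : ℝ) ^ r * (cong C K 1 (M * L)).relIndex (arith C K 1) *
        normSq ((cong C K 1 L).subgroupOf (arith C K P)) κ) ∧
    (∀ τ σ : ℝ, 0 < τ → 0 ≤ σ → NormLE ((cong C K 1 L).subgroupOf (arith C K P)) κ τ →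
      (∀ j, (Nat.card K : ℝ) ^ (σ * (R * P.natDegree : ℕ)) * τ ≤ ‖lam j‖) →
      (n : ℝ) ≤ ((M * L).natDegree : ℝ) ^ r * (cong C K 1 (M * L)).relIndex (arith C K 1) *
        (Nat.card K : ℝ) ^ (-(σ * ((M.natDegree : ℝ) - 2 * (R * P.natDegree : ℕ))))) := by
  have hP0 : P ≠ 0 := by
    rintro rfl
    simp at hP
  have hM : M ≠ 0 := left_ne_zero_of_mul hN
  obtain ⟨t1, t2, t3, t4⟩ := trfL H22.hNrm H22.hF2 H22.hF3 C hC K P M L hP0 hM hPM hL κ R hκ
  have hone : ∀ j, petersson (M * L) (f j) (f j) = 1 := fun j => by rw [horth, if_pos rfl]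
  have hbd : ∀ a : cong C K P M, κ ⟨a.1, a.2.1⟩ ≠ 0 → H22.itg P R a.1 ∧ H22.itg P R (a.1)⁻¹ :=
    fun a ha => ⟨fun v hv => (hκ.2.2 ⟨a.1, a.2.1⟩ ha v hv).1,
      fun v hv => (hκ.2.2 ⟨a.1, a.2.1⟩ ha v hv).2⟩
  constructor
  · intro hRN
    refine H22.hCnt r C hC K hr (M * L) hN n f hcusp hone (fun j => ‖lam j‖ ^ 2)
      (fun j => by positivity) _ ?_ ?_
    · exact finsum_nonneg fun y => by positivity
    · intro γ hγ l g hg hl
      rw [← t3]
      refine thfL H26.bes H22.hScs H22.hBdg H22.hNrm H22.hFin H22.hFsp H22.hF2 H22.hF3 C hC K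
        P M L hP0 hM hPM hL hN n f hcusp horth R (by rw [mul_assoc]; exact hRN)
        (fun y => κ ⟨y.out.1, y.out.2.1⟩) ?_ ?_ lam ?_ γ hγ l g hg hl
      · exact t2
      · intro y hy
        refine ⟨y.out, (QuotientGroup.out_eq' y).symm, fun v hv => ?_⟩
        exact ⟨(hbd _ hy).1 v hv, (hbd _ hy).2 v hv⟩
      · intro j x
        exact hlam j x
  · intro τ σ hτ hσ hnorm hl
    by_cases hD : M.natDegree = 0
    · refine le_trans (trivial_bound hr hC (M * L) hN n f hcusp horth) ?_
      refine le_mul_of_one_le_right (by positivity) ?_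
      refine Real.one_le_rpow (by exact_mod_cast H22.card_gt.le) ?_
      rw [hD]
      have : (0 : ℝ) ≤ σ * (2 * (R * P.natDegree : ℕ)) := by positivity
      push_cast at this ⊢
      linarith
    · refine densL (Nat.card K) M.natDegree (R * P.natDegree) n _ τ σ H22.card_gt
        (Nat.mul_pos hR hP) (Nat.pos_of_ne_zero hD) hτ hσ lam hl ?_
      intro m hm
      obtain ⟨c, hc1, hc2, hc3, hc4⟩ := H26.ker (cong C K P M)
        ((cong C K 1 (M * L)).subgroupOf (cong C K P M)) (fun δ : cong C K P M => κ ⟨δ.1, δ.2.1⟩) τ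
        hτ.le t1 t2 (t4 τ hnorm) m
      refine H22.hCnt r C hC K hr (M * L) hN n f hcusp hone (fun j => ‖lam j ^ m‖ ^ 2)
        (fun j => by positivity) (τ ^ (2 * m)) (by positivity) ?_
      intro γ hγ l g hg hl'
      refine le_trans (thfL H26.bes H22.hScs H22.hBdg H22.hNrm H22.hFin H22.hFsp H22.hF2 H22.hF3
        C hC K P M L hP0 hM hPM hL hN n f hcusp horth (m * R)
        (by
          have : 2 * (m * R) * P.natDegree = 2 * (m * (R * P.natDegree)) := by ring
          rw [this]; exact hm) c hc1 ?_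
        (fun j => lam j ^ m) ?_ γ hγ l g hg hl') ?_
      · intro y hy
        obtain ⟨gs, hgs1, hgs2, hgs3⟩ := hc2 y hy
        have := H22.itg_prod P R gs (fun g hg => hbd g (hgs2 g hg))
        rw [hgs1] at this
        exact ⟨gs.prod, hgs3, fun v hv => ⟨this.1 v hv, this.2 v hv⟩⟩
      · intro j x
        exact H22.eigen_fin_pow (H := cong C K P M)
          ((cong C K 1 (M * L)).subgroupOf (cong C K P M))
          (fun δ : cong C K P M => κ ⟨δ.1, δ.2.1⟩) t1 (f j)
          (fun l hl y => (hcusp j).1 l.1 hl y) (lam j)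
          (fun y => hlam j y) m c (fun F hF => hc4 F (lam j) hF) x
      · exact mul_le_mul_of_nonneg_right hc3 (by positivity)

end

end Pool.Agent.DEN.H6
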