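import Pool.Agent.Helper6_RAM.Dsum
import Pool.Agent.Helper6_RAM.Main

/-!
# Job RAM (helper6): the density theorem for the norms `‖T f_j‖`
-/

set_option autoImplicit false

open scoped BigOperators

namespace Pool.Agent.DEN.H6

open Pool.Agent.DEN

/-! ## Lists of operators -/

section
variable {I X : Type}

/-- the product of the operators, the first one of the list being applied first. -/
def opl (op : I → (X → ℂ) → (X → ℂ)) : List I → (X → ℂ) → (X → ℂ)
  | [], f => f
  | k :: ks, f => opl op ks (op k f)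

/-- the alternating list. -/
def altl (a b : I) : ℕ → List I
  | 0 => []
  | (s + 1) => a :: altl b a s

theorem altl_length (a b : I) (s : ℕ) : (altl a b s).length = s := by
  induction s generalizing a b with
  | zero => rfl
  | succ s ih => show (altl b a s).length + 1 = s + 1; rw [ih]

theorem altl_mem (a b : I) (s : ℕ) : ∀ k ∈ altl a b s, k = a ∨ k = b := by
  induction s generalizing a b with
  | zero => intro k hk; exact absurd hk List.not_mem_nil
  | succ s ih =>
    intro k hk
    rcases List.mem_cons.mp hk with h | h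
    · exact Or.inl h
    · exact (ih b a k h).symm

theorem altop_opl (op : I → (X → ℂ) → (X → ℂ)) (a b : I) (s : ℕ) (f : X → ℂ) :
    altop (op a) (op b) s f = opl op (altl a b s) f := by
  induction s generalizing a b f with
  | zero => rfl
  | succ s ih => exact ih b a (op a f)

theorem opl_append (op : I → (X → ℂ) → (X → ℂ)) (ks : List I) (k : I) (f : X → ℂ) :
    opl op (ks ++ [k]) f = op k (opl op ks f) := by
  induction ks generalizing f with
  | nil => rfl
  | cons k' ks ih => exact ih (op k' f)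

end

section
variable {G X I : Type} [Group G] [MulAction G X] {Λ : Subgroup G}

theorem opl_PV (op : I → (X → ℂ) → (X → ℂ)) (ks : List I)
    (h : ∀ k ∈ ks, ∀ f, PV Λ f → PV Λ (op k f)) (f : X → ℂ) (hf : PV Λ f) :
    PV Λ (opl op ks f) := by
  induction ks generalizing f with
  | nil => exact hf
  | cons k ks ih =>
    exact ih (fun k' hk' => h k' (List.mem_cons_of_mem _ hk')) _ (h k List.mem_cons_self f hf)

theorem opl_adj (op : I → (X → ℂ) → (X → ℂ)) (st : I → I) (ks : List I)
    (h : ∀ k ∈ ks, ∀ f, PV Λ f → PV Λ (op k f)) (h' : ∀ k ∈ ks, ∀ f, PV Λ f → PV Λ (op (st k) f))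
    (hadj : ∀ k ∈ ks, ∀ f g, PV Λ f → PV Λ g → pet Λ (op k f) g = pet Λ f (op (st k) g))
    (f g : X → ℂ) (hf : PV Λ f) (hg : PV Λ g) :
    pet Λ (opl op ks f) g = pet Λ f (opl op (ks.map st).reverse g) := by
  induction ks generalizing f with
  | nil => rfl
  | cons k ks ih =>
    have h1 := ih (fun k' hk' => h k' (List.mem_cons_of_mem _ hk'))
      (fun k' hk' => h' k' (List.mem_cons_of_mem _ hk'))
      (fun k' hk' => hadj k' (List.mem_cons_of_mem _ hk')) (op k f)
      (h k List.mem_cons_self f hf)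
    have h2 : PV Λ (opl op (ks.map st).reverse g) := by
      apply opl_PV
      · intro k' hk' f hf
        rw [List.mem_reverse, List.mem_map] at hk'
        obtain ⟨k'', hk'', rfl⟩ := hk'
        exact h' k'' (List.mem_cons_of_mem _ hk'') f hf
      · exact hg
    have h3 := hadj k List.mem_cons_self f _ hf h2
    show pet Λ (opl op ks (op k f)) g = _
    rw [h1, h3, List.map_cons, List.reverse_cons, opl_append]

end

section
variable {r : ℕ} {C : Matrix (Fin r) (Fin r) ℤ} {K : Type} [Field K]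

theorem cusp_PV [Finite K] (hC : SimplyLaced C) (N : Polynomial K) (hN : N ≠ 0) (f : XX C K → ℂ)
    (hf : IsCusp N f) : PV (cong C K 1 N) f :=
  ⟨hf.1, H22.hFsp r C hC K N hN f hf⟩

/-- (SING) the density theorem for an abstract operator. -/
theorem sing [Finite K] (hr : 0 < r) (hC : SimplyLaced C)
    (N : Polynomial K) (hN : N ≠ 0) (n : ℕ) (f : Fin n → XX C K → ℂ)
    (hcusp : ∀ j, IsCusp N (f j))
    (horth : ∀ i j, petersson N (f i) (f j) = if i = j then 1 else 0)
    (W D : ℕ) (hW : 0 < W) (τ σ : ℝ) (hτ : 0 < τ) (hσ : 0 ≤ σ)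
    (T T' : (XX C K → ℂ) → (XX C K → ℂ))
    (hT : ∀ f, PV (cong C K 1 N) f → PV (cong C K 1 N) (T f))
    (hT' : ∀ f, PV (cong C K 1 N) f → PV (cong C K 1 N) (T' f))
    (hadj : ∀ f g, PV (cong C K 1 N) f → PV (cong C K 1 N) g →
      pet (cong C K 1 N) (T f) g = pet (cong C K 1 N) f (T' g))
    (hadj' : ∀ f g, PV (cong C K 1 N) f → PV (cong C K 1 N) g →
      pet (cong C K 1 N) (T' f) g = pet (cong C K 1 N) f (T g))
    (hpt : ∀ m : ℕ, 2 * (m * W) < D → ∃ A' : (XX C K → ℂ) → (XX C K → ℂ),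
      (∀ f g, PV (cong C K 1 N) f → PV (cong C K 1 N) g →
        pet (cong C K 1 N) (altop T T' m f) g = pet (cong C K 1 N) f (A' g)) ∧
      ∀ (n' : ℕ) (g' : Fin n' → XX C K → ℂ), (∀ k, PV (cong C K 1 N) (g' k)) →
        (∀ i j, pet (cong C K 1 N) (g' i) (g' j) = if i = j then 1 else 0) →
        ∀ γ ∈ arith C K 1, ∀ (l : Fin r → ℤ) (g : grp C K), IsTor l g → IsDom C l →
          ∑ k, ‖A' (g' k) (γ • pt g)‖ ^ 2 ≤ τ ^ (2 * m) * (Nat.card K : ℝ) ^ dep C l)
    (hlow : ∀ j, ((Nat.card K : ℝ) ^ (σ * W) * τ) ^ 2 ≤ nsq (cong C K 1 N) (T (f j))) :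
    (n : ℝ) ≤ (N.natDegree : ℝ) ^ r * (cong C K 1 N).relIndex (arith C K 1) *
      (Nat.card K : ℝ) ^ (-(σ * ((D : ℝ) - 2 * W))) := by
  classical
  have hq0 : (0 : ℝ) < Nat.card K := by
    have := H22.card_gt (K := K)
    exact_mod_cast (by omega : 0 < Nat.card K)
  by_cases hD : D = 0
  · refine le_trans (trivial_bound hr hC N hN n f hcusp horth) ?_
    refine le_mul_of_one_le_right (by positivity) ?_
    refine Real.one_le_rpow (by exact_mod_cast H22.card_gt.le) ?_
    rw [hD]
    have : (0 : ℝ) ≤ σ * (2 * W) := by positivity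
    push_cast at this ⊢
    linarith
  have hPV : ∀ j, PV (cong C K 1 N) (f j) := fun j => cusp_PV hC N hN (f j) (hcusp j)
  have hnsq : ∀ j, nsq (cong C K 1 N) (f j) = 1 := by
    intro j
    have h1 := pet_self (hPV j)
    have h2 : pet (cong C K 1 N) (f j) (f j) = 1 := by
      have := horth j j
      rw [if_pos rfl] at this
      exact this
    rw [h2] at h1
    exact_mod_cast h1.symm
  refine densL (Nat.card K) D W n _ τ σ H22.card_gt hW (Nat.pos_of_ne_zero hD) hτ hσ
    (fun j => ((Real.sqrt (nsq (cong C K 1 N) (T (f j))) : ℝ) : ℂ)) ?_ ?_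
  · intro j
    rw [Complex.norm_real, Real.norm_of_nonneg (Real.sqrt_nonneg _)]
    exact Real.le_sqrt_of_sq_le (hlow j)
  · intro m hm
    obtain ⟨A', hA', hA''⟩ := hpt m hm
    -- the truncated domain
    have hSfin : {o : MulAction.orbitRel.Quotient (cong C K 1 N) (XX C K) |
        ∃ j, f j o.out ≠ 0}.Finite := by
      have h : {o : MulAction.orbitRel.Quotient (cong C K 1 N) (XX C K) | ∃ j, f j o.out ≠ 0} =
          ⋃ j, {o | f j o.out ≠ 0} := by
        ext o; simp
      rw [h]
      exact Set.finite_iUnion fun j => (hPV j).2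
    obtain ⟨S, hS⟩ : ∃ S : Finset (MulAction.orbitRel.Quotient (cong C K 1 N) (XX C K)),
        ∀ o, o ∈ S ↔ ∃ j, f j o.out ≠ 0 := ⟨hSfin.toFinset, fun o => by simp⟩
    choose γ hγ l g hg hl hx using
      fun o : MulAction.orbitRel.Quotient (cong C K 1 N) (XX C K) => H22.hBir r C hC K o.out
    have hst : ∀ x : XX C K, Finite (MulAction.stabilizer (cong C K 1 N) x) := fun x =>
      (H22.hFin r C hC K).2.1 N x
    have h1 := hs hst n f hPV S (fun j o ho => (hS o).mpr ⟨j, ho⟩) horth (altop T T' m) A'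
      (fun f hf => by
        have h2 : ∀ (m : ℕ) (T T' : (XX C K → ℂ) → (XX C K → ℂ)),
            (∀ f, PV (cong C K 1 N) f → PV (cong C K 1 N) (T f)) →
            (∀ f, PV (cong C K 1 N) f → PV (cong C K 1 N) (T' f)) → ∀ f,
            PV (cong C K 1 N) f → PV (cong C K 1 N) (altop T T' m f) := by
          intro m
          induction m with
          | zero => intro T T' _ _ f hf; exact hf
          | succ m ih => intro T T' hT hT' f hf; exact ih T' T hT' hT _ (hT f hf)
        exact h2 m T T' hT hT' f hf) hA'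
      (fun o => τ ^ (2 * m) * (Nat.card K : ℝ) ^ dep C (l o))
      (fun o ho n' g' hg' horth' => by
        have h3 := hA'' n' g' hg' horth' (γ o) (hγ o) (l o) (g o) (hg o) (hl o)
        rwa [← hx o] at h3)
    have h2 := dsum hC N hN (τ ^ (2 * m)) (by positivity) S γ hγ l g hg hl hx (by
      intro o ho i
      obtain ⟨j, hj⟩ := (hS o).mp ho
      by_contra hlt
      apply hj
      rw [hx o]
      refine H22.hVan r C hC K N hN (f j) (hcusp j) (γ o) (hγ o) (l o) (g o) (hg o) (hl o) i ?_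
      omega)
    have h3 : ∀ j, ‖((Real.sqrt (nsq (cong C K 1 N) (T (f j))) : ℝ) : ℂ) ^ m‖ ^ 2 ≤
        nsq (cong C K 1 N) (altop T T' m (f j)) := by
      intro j
      rw [norm_pow, Complex.norm_real, Real.norm_of_nonneg (Real.sqrt_nonneg _), ← pow_mul,
        mul_comm m 2, pow_mul, Real.sq_sqrt (nsq_nonneg _)]
      have h4 := grow m T T' hT hT' hadj hadj' (f j) (hPV j)
      rw [hnsq j, one_pow, mul_one, mul_one] at h4
      exact h4
    exact (Finset.sum_le_sum fun j _ => h3 j).trans (h1.trans h2)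

/-- (FINL2) the density theorem for Hecke functions of level `L` at `P`, for the norms. -/
theorem finL2 [Finite K] (hr : 0 < r) (hC : SimplyLaced C)
    (P M L : Polynomial K) (hP : 0 < P.natDegree) (hPM : IsCoprime P M)
    (hL : ∃ k, L ∣ P ^ k) (hN : M * L ≠ 0) (n : ℕ) (f : Fin n → XX C K → ℂ)
    (hcusp : ∀ j, IsCusp (M * L) (f j))
    (horth : ∀ i j, petersson (M * L) (f i) (f j) = if i = j then 1 else 0)
    (R : ℕ) (hR : 0 < R)
    (κ : arith C K P → ℂ) (hκ : HeckeLev P L κ R) (τ σ : ℝ) (hτ : 0 < τ) (hσ : 0 ≤ σ)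
    (hnorm : NormLE ((cong C K 1 L).subgroupOf (arith C K P)) κ τ)
    (hlow : ∀ j, ((Nat.card K : ℝ) ^ (σ * (R * P.natDegree : ℕ)) * τ) ^ 2 ≤
      nsq (cong C K 1 (M * L)) (tf (cong C K 1 (M * L)) (cong C K P M)
        (fun δ : cong C K P M => κ ⟨δ.1, δ.2.1⟩) (f j))) :
    (n : ℝ) ≤ ((M * L).natDegree : ℝ) ^ r * (cong C K 1 (M * L)).relIndex (arith C K 1) *
      (Nat.card K : ℝ) ^ (-(σ * ((M.natDegree : ℝ) - 2 * (R * P.natDegree : ℕ)))) := by
  classical
  have hP0 : P ≠ 0 := by
    rintro rfl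
    simp at hP
  have hM : M ≠ 0 := left_ne_zero_of_mul hN
  obtain ⟨n1, -, -, -⟩ := nrmL H22.hNrm H22.hF2 H22.hF3 C hC K P M L hP0 hM hPM hL
  obtain ⟨t1, t2, -, t4⟩ := trfL H22.hNrm H22.hF2 H22.hF3 C hC K P M L hP0 hM hPM hL κ R hκ
  have hst : ∀ x : XX C K, Finite (MulAction.stabilizer (cong C K 1 (M * L)) x) := fun x =>
    (H22.hFin r C hC K).2.1 (M * L) x
  set k : cong C K P M → ℂ := fun δ => κ ⟨δ.1, δ.2.1⟩ with hk
  set Lq := (cong C K 1 (M * L)).subgroupOf (cong C K P M) with hLq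
  have hgood : Good Lq k := good_of_norm t1 t2 (t4 τ hnorm)
  have hns : NormLE Lq k τ := t4 τ hnorm
  have hbd : ∀ a : cong C K P M, k a ≠ 0 → H22.itg P R a.1 ∧ H22.itg P R (a.1)⁻¹ :=
    fun a ha => ⟨fun v hv => (hκ.2.2 ⟨a.1, a.2.1⟩ ha v hv).1,
      fun v hv => (hκ.2.2 ⟨a.1, a.2.1⟩ ha v hv).2⟩
  have hbd' : ∀ a : cong C K P M, star k a ≠ 0 → H22.itg P R a.1 ∧ H22.itg P R (a.1)⁻¹ := by
    intro a ha
    have h1 : k a⁻¹ ≠ 0 := by
      intro h
      apply ha
      unfold star
      rw [h, map_zero]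
    have h2 := hbd _ h1
    rw [Subgroup.coe_inv, inv_inv] at h2
    exact ⟨h2.2, h2.1⟩
  have hall : ∀ k' : cong C K P M → ℂ, (k' = k ∨ k' = star k) →
      Good Lq k' ∧ NormLE Lq k' τ ∧
      ∀ a : cong C K P M, k' a ≠ 0 → H22.itg P R a.1 ∧ H22.itg P R (a.1)⁻¹ := by
    rintro k' (rfl | rfl)
    · exact ⟨hgood, hns, hbd⟩
    · exact ⟨hgood.star, normLE_star hns, hbd'⟩
  have hadj : ∀ k' : cong C K P M → ℂ, Good Lq k' → ∀ f g,
      PV (cong C K 1 (M * L)) f → PV (cong C K 1 (M * L)) g →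
      pet (cong C K 1 (M * L)) (tf (cong C K 1 (M * L)) (cong C K P M) k' f) g =
      pet (cong C K 1 (M * L)) f (tf (cong C K 1 (M * L)) (cong C K P M) (star k') g) :=
    fun k' hk' f g hf hg => tf_adj n1 hst hk' hf hg
  refine sing hr hC (M * L) hN n f hcusp horth (R * P.natDegree) M.natDegree
    (Nat.mul_pos hR hP) τ σ hτ hσ (tf (cong C K 1 (M * L)) (cong C K P M) k)
    (tf (cong C K 1 (M * L)) (cong C K P M) (star k)) (fun f hf => tf_PV n1 hgood hf)
    (fun f hf => tf_PV n1 hgood.star hf) (hadj k hgood) ?_ ?_ hlow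
  · intro f g hf hg
    have h1 := hadj (star k) hgood.star f g hf hg
    rwa [star_star] at h1
  · intro m hm
    set ks := altl k (star k) m with hks
    set ks' := (ks.map star).reverse with hks'
    have hmem : ∀ k' ∈ ks, k' = k ∨ k' = star k := altl_mem k (star k) m
    have hmem' : ∀ k' ∈ ks', k' = k ∨ k' = star k := by
      intro k' hk'
      rw [hks', List.mem_reverse, List.mem_map] at hk'
      obtain ⟨k'', hk'', rfl⟩ := hk'
      rcases hmem k'' hk'' with rfl | rfl
      · exact Or.inr rfl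
      · exact Or.inl (star_star k)
    have hlen : ks'.length = m := by
      rw [hks', List.length_reverse, List.length_map, hks, altl_length]
    refine ⟨opl (tf (cong C K 1 (M * L)) (cong C K P M)) ks', ?_, ?_⟩
    · intro f g hf hg
      rw [altop_opl]
      refine opl_adj _ star ks ?_ ?_ ?_ f g hf hg
      · intro k' hk' f hf
        exact tf_PV n1 (hall k' (hmem k' hk')).1 hf
      · intro k' hk' f hf
        exact tf_PV n1 (hall k' (hmem k' hk')).1.star hf
      · intro k' hk'
        exact hadj k' (hall k' (hmem k' hk')).1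
    · intro n' g' hg' horth' γ hγ l g hg hl
      obtain ⟨c, hc1, hc2, hc3, hc4⟩ := ker2 (L := Lq) (τ := τ) ks' (fun k' hk' =>
        ⟨(hall k' (hmem' k' hk')).1.inv, (hall k' (hmem' k' hk')).1.fin,
          (hall k' (hmem' k' hk')).2.1⟩)
      have hop : ∀ (ks : List (cong C K P M → ℂ)) (f : XX C K → ℂ),
          opl (tf (cong C K 1 (M * L)) (cong C K P M)) ks f =
          tfl (cong C K 1 (M * L)) (cong C K P M) ks f := by
        intro ks
        induction ks with
        | nil => intro f; rfl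
        | cons k ks ih => intro f; exact ih _
      have h1 : ∀ j, opl (tf (cong C K 1 (M * L)) (cong C K P M)) ks' (g' j) (γ • pt g) =
          ∑ᶠ y, c y * g' j ((y.out.1)⁻¹ • (γ • pt g)) := by
        intro j
        rw [hop, hc4]
        exact (kopl_tfl n1 ks' (fun k' hk' => (hall k' (hmem' k' hk')).1) (g' j) (hg' j).1
          (γ • pt g)).symm
      simp only [h1]
      refine (thfG hC P M L hP0 hM hPM hL hN n' g' hg' horth' (m * R) (by
        have : 2 * (m * R) * P.natDegree = 2 * (m * (R * P.natDegree)) := by ring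
        rw [this]; exact hm) c hc1 ?_ γ hγ l g hg hl).trans ?_
      · intro y hy
        obtain ⟨gs, hgs1, hgs2, hgs3⟩ := hc2 y hy
        have h2 := H22.itg_prod P R gs (fun a ha => by
          obtain ⟨k', hk', hka⟩ := hgs2 a ha
          exact (hall k' (hmem' k' hk')).2.2 a hka)
        rw [hgs1, hlen] at h2
        exact ⟨gs.prod, hgs3, fun v hv => ⟨h2.1 v hv, h2.2 v hv⟩⟩
      · rw [hlen] at hc3
        exact mul_le_mul_of_nonneg_right hc3 (by positivity)

/-- (INF2) the density theorem at `∞`, for the norms. -/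
theorem infL2 [Finite K] (hr : 0 < r) (hC : SimplyLaced C)
    (N : Polynomial K) (hN : N ≠ 0) (n : ℕ) (f : Fin n → XX C K → ℂ)
    (hcusp : ∀ j, IsCusp N (f j))
    (horth : ∀ i j, petersson N (f i) (f j) = if i = j then 1 else 0)
    (R : ℕ) (hR : 0 < R) (κ : grp C K → ℂ) (hκ : HeckeInf κ R) (τ σ : ℝ) (hτ : 0 < τ)
    (hσ : 0 ≤ σ) (hnorm : NormLE (maxK C K) κ τ)
    (hlow : ∀ j, ((Nat.card K : ℝ) ^ (σ * R) * τ) ^ 2 ≤
      nsq (cong C K 1 N) (kop (maxK C K) κ (f j))) :
    (n : ℝ) ≤ (N.natDegree : ℝ) ^ r * (cong C K 1 N).relIndex (arith C K 1) *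
      (Nat.card K : ℝ) ^ (-(σ * ((N.natDegree : ℝ) - 2 * R))) := by
  classical
  obtain ⟨hκ1, hκ2, hκ3⟩ := hκ
  have hst : ∀ x : XX C K, Finite (MulAction.stabilizer (cong C K 1 N) x) := fun x =>
    (H22.hFin r C hC K).2.1 N x
  have hgood : Good (maxK C K) κ := good_of_norm hκ1 hκ2 hnorm
  have hbd : ∀ a : grp C K, κ a ≠ 0 → bnd (R : ℤ) a ∧ bnd (R : ℤ) a⁻¹ := fun a ha =>
    ⟨fun v hv => (hκ3 a ha v hv).1, fun v hv => (hκ3 a ha v hv).2⟩
  have hbd' : ∀ a : grp C K, star κ a ≠ 0 → bnd (R : ℤ) a ∧ bnd (R : ℤ) a⁻¹ := by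
    intro a ha
    have h1 : κ a⁻¹ ≠ 0 := by
      intro h
      apply ha
      unfold star
      rw [h, map_zero]
    have h2 := hbd _ h1
    rw [inv_inv] at h2
    exact ⟨h2.2, h2.1⟩
  have hall : ∀ k' : grp C K → ℂ, (k' = κ ∨ k' = star κ) →
      Good (maxK C K) k' ∧ NormLE (maxK C K) k' τ ∧
      ∀ a : grp C K, k' a ≠ 0 → bnd (R : ℤ) a ∧ bnd (R : ℤ) a⁻¹ := by
    rintro k' (rfl | rfl)
    · exact ⟨hgood, hnorm, hbd⟩
    · exact ⟨hgood.star, normLE_star hnorm, hbd'⟩
  have hadj : ∀ k' : grp C K → ℂ, Good (maxK C K) k' → ∀ f g,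
      PV (cong C K 1 N) f → PV (cong C K 1 N) g →
      pet (cong C K 1 N) (kop (maxK C K) k' f) g =
      pet (cong C K 1 N) f (kop (maxK C K) (star k') g) :=
    fun k' hk' f g hf hg => kop_adj hst hk' hf hg
  refine sing hr hC N hN n f hcusp horth R N.natDegree hR τ σ hτ hσ (kop (maxK C K) κ)
    (kop (maxK C K) (star κ)) (fun f hf => kop_PV hst hgood hf)
    (fun f hf => kop_PV hst hgood.star hf) (hadj κ hgood) ?_ ?_ hlow
  · intro f g hf hg
    have h1 := hadj (star κ) hgood.star f g hf hg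
    rwa [star_star] at h1
  · intro m hm
    set ks := altl κ (star κ) m with hks
    set ks' := (ks.map star).reverse with hks'
    have hmem : ∀ k' ∈ ks, k' = κ ∨ k' = star κ := altl_mem κ (star κ) m
    have hmem' : ∀ k' ∈ ks', k' = κ ∨ k' = star κ := by
      intro k' hk'
      rw [hks', List.mem_reverse, List.mem_map] at hk'
      obtain ⟨k'', hk'', rfl⟩ := hk'
      rcases hmem k'' hk'' with rfl | rfl
      · exact Or.inr rfl
      · exact Or.inl (star_star κ)
    have hlen : ks'.length = m := by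
      rw [hks', List.length_reverse, List.length_map, hks, altl_length]
    refine ⟨opl (kop (maxK C K)) ks', ?_, ?_⟩
    · intro f g hf hg
      rw [altop_opl]
      refine opl_adj _ star ks ?_ ?_ ?_ f g hf hg
      · intro k' hk' f hf
        exact kop_PV hst (hall k' (hmem k' hk')).1 hf
      · intro k' hk' f hf
        exact kop_PV hst (hall k' (hmem k' hk')).1.star hf
      · intro k' hk'
        exact hadj k' (hall k' (hmem k' hk')).1
    · intro n' g' hg' horth' γ hγ l g hg hl
      obtain ⟨c, hc1, hc2, hc3, hc4⟩ := ker2 (L := maxK C K) (τ := τ) ks' (fun k' hk' =>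
        ⟨(hall k' (hmem' k' hk')).1.inv, (hall k' (hmem' k' hk')).1.fin,
          (hall k' (hmem' k' hk')).2.1⟩)
      have hop : ∀ (ks : List (grp C K → ℂ)), (∀ k' ∈ ks, Good (maxK C K) k') →
          ∀ (f : XX C K → ℂ) (a : grp C K) (x : XX C K),
          opl (kop (maxK C K)) ks f (a • x) = kopl (maxK C K) ks (fun y => f (a • y)) x := by
        intro ks
        induction ks with
        | nil => intro _ f a x; rfl
        | cons k ks ih =>
          intro hks f a x
          have h1 := ih (fun k' hk' => hks k' (List.mem_cons_of_mem _ hk'))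
            (kop (maxK C K) k f) a x
          have h2 : (fun y => kop (maxK C K) k f (a • y)) =
              kop (maxK C K) k (fun y => f (a • y)) := by
            funext y
            exact kop_inv (hks k List.mem_cons_self).inv a y
          rw [h2] at h1
          exact h1
      have h1 : ∀ j, opl (kop (maxK C K)) ks' (g' j) (γ • pt g) =
          ∑ᶠ y, c y * g' j ((γ * g) • y) := by
        intro j
        have h2 : (γ • pt g : XX C K) = (γ * g) • (QuotientGroup.mk 1 : XX C K) := by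
          show (QuotientGroup.mk (γ * g) : XX C K) = QuotientGroup.mk (γ * g * 1)
          rw [mul_one]
        rw [h2, hop ks' (fun k' hk' => (hall k' (hmem' k' hk')).1), hc4 (fun y => g' j ((γ * g) • y))]
      simp only [h1]
      refine (thiG hC N hN n' g' hg' horth' (m * R) hm c hc1 ?_ γ hγ l g hg hl).trans ?_
      · intro y hy
        obtain ⟨gs, hgs1, hgs2, hgs3⟩ := hc2 y hy
        have h2 := H22.bnd_prod H22.hBdg hC R gs (fun a ha => by
          obtain ⟨k', hk', hka⟩ := hgs2 a ha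
          exact (hall k' (hmem' k' hk')).2.2 a hka)
        rw [hgs1, hlen] at h2
        exact ⟨gs.prod, hgs3, h2⟩
      · rw [hlen] at hc3
        exact mul_le_mul_of_nonneg_right hc3 (by positivity)

end

end Pool.Agent.DEN.H6
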