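import Pool.Agent.Helper22_DEN.Stmt

/-!
# Job RAM (helper6): invariant functions with finite support modulo a group, adjoint operators
-/

set_option autoImplicit false

open scoped BigOperators

namespace Pool.Agent.DEN.H6

section
variable {G X : Type} [Group G] [MulAction G X] (Λ : Subgroup G)

/-- `Λ`-invariant functions with finite support modulo `Λ`. -/
def PV (f : X → ℂ) : Prop :=
  (∀ γ ∈ Λ, ∀ x, f (γ • x) = f x) ∧
    {o : MulAction.orbitRel.Quotient Λ X | f o.out ≠ 0}.Finite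

/-- the order of the stabilizer. -/
noncomputable def wt (o : MulAction.orbitRel.Quotient Λ X) : ℝ :=
  Nat.card (MulAction.stabilizer Λ o.out)

/-- the inner product. -/
noncomputable def pet (f g : X → ℂ) : ℂ :=
  ∑ᶠ o : MulAction.orbitRel.Quotient Λ X,
    (starRingEnd ℂ) (f o.out) * g o.out / Nat.card (MulAction.stabilizer Λ o.out)

/-- the squared norm. -/
noncomputable def nsq (f : X → ℂ) : ℝ :=
  ∑ᶠ o : MulAction.orbitRel.Quotient Λ X,
    ‖f o.out‖ ^ 2 / Nat.card (MulAction.stabilizer Λ o.out)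

variable {Λ}

theorem nsq_nonneg (f : X → ℂ) : 0 ≤ nsq Λ f :=
  finsum_nonneg fun _ => by positivity

theorem pet_eq {f g : X → ℂ} (D : Finset (MulAction.orbitRel.Quotient Λ X))
    (hD : ∀ o, f o.out ≠ 0 → o ∈ D) :
    pet Λ f g = ∑ o ∈ D, (starRingEnd ℂ) (f o.out) * g o.out /
      Nat.card (MulAction.stabilizer Λ o.out) := by
  unfold pet
  apply finsum_eq_sum_of_support_subset
  intro o ho
  refine hD o fun h => ho ?_
  simp [h]

theorem pet_eq' {f g : X → ℂ} (D : Finset (MulAction.orbitRel.Quotient Λ X))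
    (hD : ∀ o, g o.out ≠ 0 → o ∈ D) :
    pet Λ f g = ∑ o ∈ D, (starRingEnd ℂ) (f o.out) * g o.out /
      Nat.card (MulAction.stabilizer Λ o.out) := by
  unfold pet
  apply finsum_eq_sum_of_support_subset
  intro o ho
  refine hD o fun h => ho ?_
  simp [h]

theorem nsq_eq {f : X → ℂ} (D : Finset (MulAction.orbitRel.Quotient Λ X))
    (hD : ∀ o, f o.out ≠ 0 → o ∈ D) :
    nsq Λ f = ∑ o ∈ D, ‖f o.out‖ ^ 2 / Nat.card (MulAction.stabilizer Λ o.out) := by
  unfold nsq
  apply finsum_eq_sum_of_support_subset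
  intro o ho
  refine hD o fun h => ho ?_
  simp [h]

theorem pet_self {f : X → ℂ} (hf : PV Λ f) : pet Λ f f = (nsq Λ f : ℂ) := by
  have hD : ∀ o, f o.out ≠ 0 → o ∈ hf.2.toFinset := fun o ho => by
    rw [Set.Finite.mem_toFinset]; exact ho
  rw [pet_eq _ hD, nsq_eq _ hD]
  push_cast
  refine Finset.sum_congr rfl fun o _ => ?_
  rw [← Complex.normSq_eq_conj_mul_self, Complex.normSq_eq_norm_sq]
  push_cast
  rfl

theorem pet_conj {f g : X → ℂ} (hf : PV Λ f) : (starRingEnd ℂ) (pet Λ f g) = pet Λ g f := by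
  have hD : ∀ o, f o.out ≠ 0 → o ∈ hf.2.toFinset := fun o ho => by
    rw [Set.Finite.mem_toFinset]; exact ho
  rw [pet_eq _ hD, pet_eq' _ hD, map_sum]
  refine Finset.sum_congr rfl fun o _ => ?_
  rw [map_div₀, map_mul, Complex.conj_conj, map_natCast, mul_comm]

theorem pet_cs {f g : X → ℂ} (hf : PV Λ f) (hg : PV Λ g) :
    ‖pet Λ f g‖ ^ 2 ≤ nsq Λ f * nsq Λ g := by
  classical
  set D := hf.2.toFinset ∪ hg.2.toFinset with hDd
  have hDf : ∀ o, f o.out ≠ 0 → o ∈ D := fun o ho =>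
    Finset.mem_union_left _ (by rw [Set.Finite.mem_toFinset]; exact ho)
  have hDg : ∀ o, g o.out ≠ 0 → o ∈ D := fun o ho =>
    Finset.mem_union_right _ (by rw [Set.Finite.mem_toFinset]; exact ho)
  rw [pet_eq _ hDf, nsq_eq _ hDf, nsq_eq _ hDg]
  have h1 : ‖∑ o ∈ D, (starRingEnd ℂ) (f o.out) * g o.out /
      Nat.card (MulAction.stabilizer Λ o.out)‖ ≤
      ∑ o ∈ D, (‖f o.out‖ / Real.sqrt (Nat.card (MulAction.stabilizer Λ o.out))) *
        (‖g o.out‖ / Real.sqrt (Nat.card (MulAction.stabilizer Λ o.out))) := by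
    refine (norm_sum_le _ _).trans (Finset.sum_le_sum fun o _ => le_of_eq ?_)
    rw [norm_div, norm_mul, RCLike.norm_conj, div_mul_div_comm,
      Real.mul_self_sqrt (Nat.cast_nonneg _), Complex.norm_natCast]
  have h2 := Finset.sum_mul_sq_le_sq_mul_sq D
    (fun o => ‖f o.out‖ / Real.sqrt (Nat.card (MulAction.stabilizer Λ o.out)))
    (fun o => ‖g o.out‖ / Real.sqrt (Nat.card (MulAction.stabilizer Λ o.out)))
  refine (pow_le_pow_left₀ (norm_nonneg _) h1 2).trans (h2.trans (le_of_eq ?_))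
  simp only [div_pow, Real.sq_sqrt (Nat.cast_nonneg _)]

/-- the point `x` and its representative. -/
theorem inv_out {f : X → ℂ} (hf : ∀ γ ∈ Λ, ∀ x, f (γ • x) = f x) (x : X) :
    f (Quotient.mk (MulAction.orbitRel Λ X) x).out = f x := by
  have h1 : (MulAction.orbitRel Λ X) (Quotient.mk (MulAction.orbitRel Λ X) x).out x :=
    Quotient.exact (Quotient.out_eq _)
  rw [MulAction.orbitRel_apply] at h1
  obtain ⟨γ, hγ⟩ := h1
  have h2 := hf γ.1 γ.2 x
  rw [← h2]
  exact congrArg f hγ.symm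

/-- growth of the powers: `T`, `T'` adjoint to each other. -/
theorem grow_step {f g h : X → ℂ} (hf : PV Λ f) (hg : PV Λ g) (hh : PV Λ h)
    (hadj : pet Λ g g = pet Λ f h) : nsq Λ g ^ 2 ≤ nsq Λ f * nsq Λ h := by
  have h1 := pet_cs hf hh
  rw [← hadj, pet_self hg, Complex.norm_real, Real.norm_of_nonneg (nsq_nonneg g)] at h1
  exact h1

/-- the alternating product. -/
def altop (T T' : (X → ℂ) → (X → ℂ)) : ℕ → (X → ℂ) → (X → ℂ)
  | 0, f => f
  | (s + 1), f => altop T' T s (T f)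

theorem grow (s : ℕ) : ∀ (T T' : (X → ℂ) → (X → ℂ)),
    (∀ f, PV Λ f → PV Λ (T f)) → (∀ f, PV Λ f → PV Λ (T' f)) →
    (∀ f g, PV Λ f → PV Λ g → pet Λ (T f) g = pet Λ f (T' g)) →
    (∀ f g, PV Λ f → PV Λ g → pet Λ (T' f) g = pet Λ f (T g)) →
    ∀ f, PV Λ f → nsq Λ (T f) ^ s * nsq Λ f ≤ nsq Λ (altop T T' s f) * nsq Λ f ^ s := by
  induction s with
  | zero =>
    intro T T' _ _ _ _ f _
    simp [altop]
  | succ s ih =>
    intro T T' hT hT' hadj hadj' f hf
    have hg := hT f hf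
    have h1 := ih T' T hT' hT hadj' hadj (T f) hg
    have h2 := grow_step hf hg (hT' _ hg) (hadj f (T f) hf hg)
    have n1 := nsq_nonneg (Λ := Λ) f
    have n2 := nsq_nonneg (Λ := Λ) (T f)
    have n3 := nsq_nonneg (Λ := Λ) (T' (T f))
    have n4 := nsq_nonneg (Λ := Λ) (altop T' T s (T f))
    show nsq Λ (T f) ^ (s + 1) * nsq Λ f ≤ nsq Λ (altop T' T s (T f)) * nsq Λ f ^ (s + 1)
    rcases n2.eq_or_lt with h0 | h0
    · rw [← h0, zero_pow (Nat.succ_ne_zero s), zero_mul]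
      positivity
    · have h3 : nsq Λ (T f) ^ s * nsq Λ (T f) ^ (s + 1) ≤
          nsq Λ (T f) ^ s * (nsq Λ f ^ s * nsq Λ (altop T' T s (T f))) := by
        calc nsq Λ (T f) ^ s * nsq Λ (T f) ^ (s + 1)
            = (nsq Λ (T f) ^ 2) ^ s * nsq Λ (T f) := by ring
          _ ≤ (nsq Λ f * nsq Λ (T' (T f))) ^ s * nsq Λ (T f) := by gcongr
          _ = nsq Λ f ^ s * (nsq Λ (T' (T f)) ^ s * nsq Λ (T f)) := by ring
          _ ≤ nsq Λ f ^ s * (nsq Λ (altop T' T s (T f)) * nsq Λ (T f) ^ s) := by gcongr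
          _ = _ := by ring
      have h4 := le_of_mul_le_mul_left h3 (pow_pos h0 s)
      calc nsq Λ (T f) ^ (s + 1) * nsq Λ f
          ≤ (nsq Λ f ^ s * nsq Λ (altop T' T s (T f))) * nsq Λ f := by gcongr
        _ = _ := by ring

/-- Bessel's inequality for functions supported in `D`. -/
theorem bessel (hst : ∀ x : X, Finite (MulAction.stabilizer Λ x)) (n : ℕ) (f : Fin n → X → ℂ)
    (D : Finset (MulAction.orbitRel.Quotient Λ X)) (hD : ∀ j o, f j o.out ≠ 0 → o ∈ D)
    (horth : ∀ i j, pet Λ (f i) (f j) = if i = j then 1 else 0) (g : X → ℂ) :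
    ∑ j, ‖pet Λ (f j) g‖ ^ 2 ≤
      ∑ o ∈ D, ‖g o.out‖ ^ 2 / Nat.card (MulAction.stabilizer Λ o.out) := by
  classical
  let w : MulAction.orbitRel.Quotient Λ X → ℝ := fun o => Nat.card (MulAction.stabilizer Λ o.out)
  have hw : ∀ o, 0 < w o := by
    intro o
    have := hst o.out
    have h : 0 < Nat.card (MulAction.stabilizer Λ o.out) := Nat.card_pos
    show (0 : ℝ) < (Nat.card (MulAction.stabilizer Λ o.out) : ℝ)
    exact_mod_cast h
  have hsq : ∀ o, (Real.sqrt (w o) : ℂ) * (Real.sqrt (w o) : ℂ) = (w o : ℂ) := by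
    intro o
    rw [← Complex.ofReal_mul, Real.mul_self_sqrt (hw o).le]
  let v : (X → ℂ) → EuclideanSpace ℂ D :=
    fun f => WithLp.toLp 2 (fun o => f o.1.out / (Real.sqrt (w o.1) : ℂ))
  have hin : ∀ f g : X → ℂ, inner ℂ (v f) (v g) = ∑ o ∈ D, (starRingEnd ℂ) (f o.out) * g o.out /
      Nat.card (MulAction.stabilizer Λ o.out) := by
    intro f g
    rw [PiLp.inner_apply, ← Finset.sum_coe_sort D]
    refine Finset.sum_congr rfl fun o _ => ?_
    simp only [v, RCLike.inner_apply, map_div₀, Complex.conj_ofReal]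
    rw [div_mul_div_comm, hsq, mul_comm (g _)]
    rfl
  have hv : Orthonormal ℂ (fun j => v (f j)) := by
    rw [orthonormal_iff_ite]
    intro i j
    rw [← horth i j, hin, pet_eq D (hD i)]
  have hB := Orthonormal.sum_inner_products_le (𝕜 := ℂ) (s := Finset.univ) (v g) hv
  have hx2 : ‖v g‖ ^ 2 = ∑ o ∈ D, ‖g o.out‖ ^ 2 / Nat.card (MulAction.stabilizer Λ o.out) := by
    rw [EuclideanSpace.norm_sq_eq, ← Finset.sum_coe_sort D]
    refine Finset.sum_congr rfl fun o _ => ?_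
    simp only [v, norm_div, Complex.norm_real, div_pow]
    rw [Real.norm_of_nonneg (Real.sqrt_nonneg _), Real.sq_sqrt (hw _).le]
  rw [← hx2]
  refine le_trans (le_of_eq ?_) hB
  refine Finset.sum_congr rfl fun j _ => ?_
  rw [hin, pet_eq D (hD j)]

/-- the normalized characteristic function of an orbit. -/
noncomputable def ebas (o : MulAction.orbitRel.Quotient Λ X) : X → ℂ := by
  classical
  exact fun x => if Quotient.mk (MulAction.orbitRel Λ X) x = o then
    (Real.sqrt (Nat.card (MulAction.stabilizer Λ o.out)) : ℂ) else 0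

theorem ebas_self (o : MulAction.orbitRel.Quotient Λ X) :
    ebas o o.out = (Real.sqrt (Nat.card (MulAction.stabilizer Λ o.out)) : ℂ) := by
  unfold ebas
  exact if_pos (Quotient.out_eq o)

theorem ebas_ne {o o' : MulAction.orbitRel.Quotient Λ X} (h : o' ≠ o) :
    ebas o o'.out = 0 := by
  unfold ebas
  refine if_neg fun h' => h ?_
  rw [← h']
  exact (Quotient.out_eq o').symm

theorem ebas_PV (o : MulAction.orbitRel.Quotient Λ X) : PV Λ (ebas o) := by
  constructor
  · intro γ hγ x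
    unfold ebas
    have h : (Quotient.mk (MulAction.orbitRel Λ X) (γ • x)) =
        Quotient.mk (MulAction.orbitRel Λ X) x := by
      apply Quotient.sound
      show (MulAction.orbitRel Λ X) (γ • x) x
      rw [MulAction.orbitRel_apply]
      exact ⟨⟨γ, hγ⟩, rfl⟩
    rw [h]
  · refine (Set.finite_singleton o).subset ?_
    intro o' ho'
    rw [Set.mem_singleton_iff]
    by_contra h
    exact ho' (ebas_ne h)

theorem wt_pos (hst : ∀ x : X, Finite (MulAction.stabilizer Λ x))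
    (o : MulAction.orbitRel.Quotient Λ X) :
    (0 : ℝ) < Nat.card (MulAction.stabilizer Λ o.out) := by
  have := hst o.out
  have h : 0 < Nat.card (MulAction.stabilizer Λ o.out) := Nat.card_pos
  exact_mod_cast h

theorem pet_ebas (hst : ∀ x : X, Finite (MulAction.stabilizer Λ x))
    (o : MulAction.orbitRel.Quotient Λ X) (g : X → ℂ) :
    pet Λ (ebas o) g = g o.out / (Real.sqrt (Nat.card (MulAction.stabilizer Λ o.out)) : ℂ) := by
  have hD : ∀ o', ebas o o'.out ≠ 0 → o' ∈ ({o} : Finset (MulAction.orbitRel.Quotient Λ X)) := by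
    intro o' ho'
    rw [Finset.mem_singleton]
    by_contra h
    exact ho' (ebas_ne h)
  rw [pet_eq _ hD, Finset.sum_singleton, ebas_self, Complex.conj_ofReal]
  have hw := wt_pos hst o
  have h1 : (Real.sqrt (Nat.card (MulAction.stabilizer Λ o.out)) : ℂ) ≠ 0 := by
    have := Real.sqrt_pos.mpr hw
    exact_mod_cast this.ne'
  have h2 : ((Nat.card (MulAction.stabilizer Λ o.out) : ℕ) : ℂ) =
      (Real.sqrt (Nat.card (MulAction.stabilizer Λ o.out)) : ℂ) *
        (Real.sqrt (Nat.card (MulAction.stabilizer Λ o.out)) : ℂ) := by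
    rw [← Complex.ofReal_mul, Real.mul_self_sqrt hw.le, Complex.ofReal_natCast]
  rw [h2, mul_div_mul_left _ _ h1]

theorem ebas_self_orth (hst : ∀ x : X, Finite (MulAction.stabilizer Λ x))
    (o : MulAction.orbitRel.Quotient Λ X) : pet Λ (ebas o) (ebas o) = 1 := by
  rw [pet_ebas hst, ebas_self]
  apply div_self
  have := Real.sqrt_pos.mpr (wt_pos hst o)
  exact_mod_cast this.ne'

theorem ebas_ne_orth (hst : ∀ x : X, Finite (MulAction.stabilizer Λ x))
    {o o' : MulAction.orbitRel.Quotient Λ X} (h : o ≠ o') : pet Λ (ebas o) (ebas o') = 0 := by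
  rw [pet_ebas hst, ebas_ne h, zero_div]

/-- (HS) the Hilbert-Schmidt estimate. -/
theorem hs (hst : ∀ x : X, Finite (MulAction.stabilizer Λ x)) (n : ℕ) (f : Fin n → X → ℂ)
    (hf : ∀ j, PV Λ (f j)) (D : Finset (MulAction.orbitRel.Quotient Λ X))
    (hD : ∀ j o, f j o.out ≠ 0 → o ∈ D)
    (horth : ∀ i j, pet Λ (f i) (f j) = if i = j then 1 else 0)
    (A A' : (X → ℂ) → (X → ℂ)) (hA : ∀ f, PV Λ f → PV Λ (A f))
    (hadj : ∀ f g, PV Λ f → PV Λ g → pet Λ (A f) g = pet Λ f (A' g))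
    (β : MulAction.orbitRel.Quotient Λ X → ℝ)
    (hβ : ∀ o ∈ D, ∀ (m : ℕ) (g : Fin m → X → ℂ), (∀ k, PV Λ (g k)) →
      (∀ i j, pet Λ (g i) (g j) = if i = j then 1 else 0) →
      ∑ k, ‖A' (g k) o.out‖ ^ 2 ≤ β o) :
    ∑ j, nsq Λ (A (f j)) ≤ ∑ o ∈ D, β o / Nat.card (MulAction.stabilizer Λ o.out) := by
  classical
  have hw : ∀ o : MulAction.orbitRel.Quotient Λ X,
      (0 : ℝ) < Nat.card (MulAction.stabilizer Λ o.out) := by
    intro o
    have := hst o.out
    have h : 0 < Nat.card (MulAction.stabilizer Λ o.out) := Nat.card_pos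
    exact_mod_cast h
  set E : Finset (MulAction.orbitRel.Quotient Λ X) :=
    Finset.univ.biUnion fun j => (hA (f j) (hf j)).2.toFinset with hE
  have hEm : ∀ j o, A (f j) o.out ≠ 0 → o ∈ E := by
    intro j o ho
    rw [hE, Finset.mem_biUnion]
    exact ⟨j, Finset.mem_univ _, by rw [Set.Finite.mem_toFinset]; exact ho⟩
  have h1 : ∀ j, nsq Λ (A (f j)) = ∑ o ∈ E, ‖pet Λ (f j) (A' (ebas o))‖ ^ 2 := by
    intro j
    rw [nsq_eq E (hEm j)]
    refine Finset.sum_congr rfl fun o _ => ?_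
    rw [← hadj (f j) (ebas o) (hf j) (ebas_PV o), ← pet_conj (ebas_PV o), RCLike.norm_conj,
      pet_ebas hst,
      norm_div, Complex.norm_real, Real.norm_of_nonneg (Real.sqrt_nonneg _), div_pow,
      Real.sq_sqrt (hw o).le]
  have h2 : ∀ o ∈ D, ∑ e ∈ E, ‖A' (ebas e) o.out‖ ^ 2 ≤ β o := by
    intro o ho
    let φ : Fin E.card ≃ E := E.equivFin.symm
    have h3 := hβ o ho E.card (fun k => ebas (φ k).1) (fun k => ebas_PV _) (by
      intro i j
      by_cases h : i = j
      · rw [if_pos h, h]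
        exact ebas_self_orth hst _
      · rw [if_neg h]
        exact ebas_ne_orth hst fun h' => h (φ.injective (Subtype.ext h')))
    refine le_trans (le_of_eq ?_) h3
    rw [← Finset.sum_coe_sort E]
    exact (Equiv.sum_comp φ (fun e => ‖A' (ebas e.1) o.out‖ ^ 2)).symm
  calc ∑ j, nsq Λ (A (f j)) = ∑ j, ∑ o ∈ E, ‖pet Λ (f j) (A' (ebas o))‖ ^ 2 :=
        Finset.sum_congr rfl fun j _ => h1 j
    _ = ∑ e ∈ E, ∑ j, ‖pet Λ (f j) (A' (ebas e))‖ ^ 2 := Finset.sum_comm
    _ ≤ ∑ e ∈ E, ∑ o ∈ D, ‖A' (ebas e) o.out‖ ^ 2 /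
          Nat.card (MulAction.stabilizer Λ o.out) :=
        Finset.sum_le_sum fun e _ => bessel hst n f D hD horth (A' (ebas e))
    _ = ∑ o ∈ D, (∑ e ∈ E, ‖A' (ebas e) o.out‖ ^ 2) /
          Nat.card (MulAction.stabilizer Λ o.out) := by
        rw [Finset.sum_comm]
        exact Finset.sum_congr rfl fun o _ => (Finset.sum_div _ _ _).symm
    _ ≤ _ := Finset.sum_le_sum fun o ho => div_le_div_of_nonneg_right (h2 o ho) (hw o).le

end

end Pool.Agent.DEN.H6
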