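import Pool.Agent.Helper6_RAM.Kop

/-!
# Job RAM (helper6): adjointness of the Hecke operators
-/

set_option autoImplicit false

open scoped BigOperators

namespace Pool.Agent.DEN.H6

section
variable {G X : Type} [Group G] [MulAction G X] {Λ : Subgroup G}

/-- the number of the elements of `Λ` which map `x` to `p`. -/
noncomputable def NN (Λ : Subgroup G) (p x : X) : ℕ := Nat.card {l : Λ // l • x = p}

theorem NN_same {p x : X} (h : ∃ l : Λ, l • x = p) :
    NN Λ p x = Nat.card (MulAction.stabilizer Λ x) := by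
  obtain ⟨l0, hl0⟩ := h
  refine Nat.card_congr ⟨fun l => ⟨l0⁻¹ * l.1, ?_⟩, fun s => ⟨l0 * s.1, ?_⟩, ?_, ?_⟩
  · rw [MulAction.mem_stabilizer_iff, mul_smul, l.2, ← hl0, inv_smul_smul]
  · rw [mul_smul, MulAction.mem_stabilizer_iff.mp s.2, hl0]
  · intro l
    exact Subtype.ext (mul_inv_cancel_left _ _)
  · intro s
    exact Subtype.ext (inv_mul_cancel_left _ _)

theorem NN_other {p x : X} (h : ¬ ∃ l : Λ, l • x = p) : NN Λ p x = 0 := by
  have : IsEmpty {l : Λ // l • x = p} := ⟨fun l => h ⟨l.1, l.2⟩⟩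
  exact Nat.card_of_isEmpty

theorem mk_eq_iff (p : X) (o : MulAction.orbitRel.Quotient Λ X) :
    Quotient.mk (MulAction.orbitRel Λ X) p = o ↔ ∃ l : Λ, l • o.out = p := by
  constructor
  · intro h
    have h1 : (MulAction.orbitRel Λ X) p o.out := Quotient.exact (h.trans (Quotient.out_eq o).symm)
    rw [MulAction.orbitRel_apply] at h1
    exact h1
  · rintro ⟨l, hl⟩
    rw [← Quotient.out_eq o]
    apply Quotient.sound
    show (MulAction.orbitRel Λ X) p o.out
    rw [MulAction.orbitRel_apply]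
    exact ⟨l, hl⟩

/-- (PT) the value at a point. -/
theorem pt_val (hst : ∀ x : X, Finite (MulAction.stabilizer Λ x)) {f : X → ℂ}
    (hf : ∀ γ ∈ Λ, ∀ x, f (γ • x) = f x) (O : Finset (MulAction.orbitRel.Quotient Λ X))
    (hO : ∀ o, f o.out ≠ 0 → o ∈ O) (p : X) :
    f p = ∑ o ∈ O, f o.out / Nat.card (MulAction.stabilizer Λ o.out) * NN Λ p o.out := by
  classical
  set o0 : MulAction.orbitRel.Quotient Λ X := Quotient.mk (MulAction.orbitRel Λ X) p with ho0
  have h0 : f o0.out = f p := inv_out hf p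
  have hz : ∀ o ∈ O, o ≠ o0 →
      f o.out / Nat.card (MulAction.stabilizer Λ o.out) * NN Λ p o.out = 0 := by
    intro o _ hne
    rw [NN_other]
    · simp
    · intro h
      exact hne ((mk_eq_iff p o).mpr h).symm
  by_cases hmem : o0 ∈ O
  · rw [Finset.sum_eq_single_of_mem o0 hmem hz, NN_same ((mk_eq_iff p o0).mp ho0.symm), h0]
    have hw : ((Nat.card (MulAction.stabilizer Λ o0.out) : ℕ) : ℂ) ≠ 0 := by
      have := (wt_pos hst o0).ne'
      exact_mod_cast this
    rw [div_mul_cancel₀ _ hw]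
  · have h1 : f p = 0 := by
      by_contra hne
      exact hmem (hO o0 (by rwa [h0]))
    rw [h1]
    symm
    apply Finset.sum_eq_zero
    intro o ho
    exact hz o ho fun h => hmem (h ▸ ho)

/-- (ADJ) the adjointness, from the symmetry of the kernels. -/
theorem adj_gen (hst : ∀ x : X, Finite (MulAction.stabilizer Λ x)) {I : Type}
    (c c' : X → I → ℂ) (p : X → I → X) (hc : ∀ x, (Function.support (c x)).Finite)
    (hc' : ∀ x, (Function.support (c' x)).Finite)
    (hK : ∀ x x', ∑ᶠ i, c' x i * (NN Λ (p x i) x' : ℂ) =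
      (starRingEnd ℂ) (∑ᶠ i, c x' i * (NN Λ (p x' i) x : ℂ)))
    {f g : X → ℂ} (hf : PV Λ f) (hg : PV Λ g) :
    pet Λ (fun x => ∑ᶠ i, c x i * f (p x i)) g = pet Λ f (fun x => ∑ᶠ i, c' x i * g (p x i)) := by
  classical
  have hDf : ∀ o, f o.out ≠ 0 → o ∈ hf.2.toFinset := fun o ho => by
    rw [Set.Finite.mem_toFinset]; exact ho
  have hDg : ∀ o, g o.out ≠ 0 → o ∈ hg.2.toFinset := fun o ho => by
    rw [Set.Finite.mem_toFinset]; exact ho
  have key : ∀ (c : X → I → ℂ), (∀ x, (Function.support (c x)).Finite) → ∀ f : X → ℂ,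
      (∀ γ ∈ Λ, ∀ x, f (γ • x) = f x) → ∀ O : Finset (MulAction.orbitRel.Quotient Λ X),
      (∀ o, f o.out ≠ 0 → o ∈ O) → ∀ x, ∑ᶠ i, c x i * f (p x i) =
      ∑ o ∈ O, f o.out / Nat.card (MulAction.stabilizer Λ o.out) *
        ∑ᶠ i, c x i * (NN Λ (p x i) o.out : ℂ) := by
    intro c hc f hf O hO x
    have h1 : ∀ F : I → ℂ, ∑ᶠ i, c x i * F i = ∑ i ∈ (hc x).toFinset, c x i * F i := by
      intro F
      apply finsum_eq_sum_of_support_subset
      intro i hi
      rw [Set.Finite.coe_toFinset]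
      exact left_ne_zero_of_mul hi
    rw [h1]
    simp only [h1, Finset.mul_sum]
    rw [Finset.sum_comm]
    refine Finset.sum_congr rfl fun i _ => ?_
    conv_lhs => rw [pt_val hst hf O hO (p x i), Finset.mul_sum]
    exact Finset.sum_congr rfl fun o _ => by ring
  rw [pet_eq' _ hDg, pet_eq _ hDf]
  have h1 : ∀ o' : MulAction.orbitRel.Quotient Λ X, (starRingEnd ℂ) (∑ᶠ i, c o'.out i * f (p o'.out i)) =
      ∑ o ∈ hf.2.toFinset, (starRingEnd ℂ) (f o.out) / Nat.card (MulAction.stabilizer Λ o.out) *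
        ∑ᶠ i, c' o.out i * (NN Λ (p o.out i) o'.out : ℂ) := by
    intro o'
    rw [key c hc f hf.1 _ hDf, map_sum]
    refine Finset.sum_congr rfl fun o _ => ?_
    rw [map_mul, map_div₀, map_natCast, hK]
  simp only [h1, key c' hc' g hg.1 _ hDg, Finset.sum_mul, Finset.mul_sum, Finset.sum_div]
  rw [Finset.sum_comm]
  refine Finset.sum_congr rfl fun o _ => Finset.sum_congr rfl fun o' _ => ?_
  ring

/-- a sum of a constant over a finite set defined by a predicate. -/
theorem finsum_const {I : Type} (P : I → Prop) [DecidablePred P] (hP : {i | P i}.Finite) (a : ℂ) :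
    ∑ᶠ i, (if P i then a else 0) = a * (Nat.card {i // P i} : ℂ) := by
  classical
  have h1 : ∑ᶠ i, (if P i then a else 0) = ∑ i ∈ hP.toFinset, (if P i then a else 0) := by
    apply finsum_eq_sum_of_support_subset
    intro i hi
    rw [Set.Finite.coe_toFinset]
    by_contra h
    exact hi (if_neg h)
  have h3 : ∑ i ∈ hP.toFinset, (if P i then a else 0) = ∑ _i ∈ hP.toFinset, a :=
    Finset.sum_congr rfl fun i hi => if_pos ((Set.Finite.mem_toFinset hP).mp hi)
  rw [h1, h3, Finset.sum_const, nsmul_eq_mul, mul_comm]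
  congr 2
  have h2 : Nat.card {i // P i} = Nat.card ({i | P i} : Set I) := rfl
  rw [h2, Nat.card_coe_set_eq, Set.ncard_eq_toFinset_card _ hP]

theorem NN_finite (hst : ∀ x : X, Finite (MulAction.stabilizer Λ x)) (p x : X) :
    {l : Λ | l • x = p}.Finite := by
  rcases Set.eq_empty_or_nonempty {l : Λ | l • x = p} with h | ⟨l0, hl0⟩
  · rw [h]; exact Set.finite_empty
  · have := hst x
    have h1 : {l : Λ | l • x = p} ⊆ (fun s : MulAction.stabilizer Λ x => l0 * s.1) '' Set.univ := by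
      intro l hl
      refine ⟨⟨l0⁻¹ * l, ?_⟩, Set.mem_univ _, mul_inv_cancel_left _ _⟩
      rw [MulAction.mem_stabilizer_iff, mul_smul, hl, ← hl0, inv_smul_smul]
    exact (Set.toFinite _).subset h1

end

/-! ## The place `∞` -/

section
variable {G : Type} [Group G] (L : Subgroup G) (Λ : Subgroup G)

theorem sec_fin {k : G → ℂ} (hinv : ∀ l ∈ L, ∀ g, k (l * g) = k g ∧ k (g * l) = k g)
    (hfin : {y : G ⧸ L | k y.out ≠ 0}.Finite) (a : G) :
    {y : G ⧸ L | k (a⁻¹ * y.out) ≠ 0}.Finite := by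
  have hinj : Set.InjOn (fun y : G ⧸ L => a⁻¹ • y)
      ((fun y : G ⧸ L => a⁻¹ • y) ⁻¹' {y : G ⧸ L | k y.out ≠ 0}) :=
    fun a _ b _ h => smul_left_cancel _ h
  refine (hfin.preimage hinj).subset ?_
  intro y hy
  have h1 : a⁻¹ • y = (QuotientGroup.mk (a⁻¹ * y.out) : G ⧸ L) := by
    conv_lhs => rw [← QuotientGroup.out_eq' y]
    rfl
  have h2 := H26.ker_out L k hinv 1 (a⁻¹ * y.out)
  simp only [one_mul] at h2
  show k (a⁻¹ • y : G ⧸ L).out ≠ 0
  rw [h1, h2]
  exact hy

/-- the representative of `γ • y`. -/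
theorem smul_out (γ : G) (y : G ⧸ L) : ∃ l ∈ L, (γ • y).out = γ * y.out * l := by
  have h1 : γ • y = (QuotientGroup.mk (γ * y.out) : G ⧸ L) := by
    conv_lhs => rw [← QuotientGroup.out_eq' y]
    rfl
  obtain ⟨l, hl⟩ := QuotientGroup.mk_out_eq_mul L (γ * y.out)
  exact ⟨l.1, l.2, by rw [h1, hl]⟩

/-- the kernel and the action. -/
theorem ker_smul {k : G → ℂ} (hinv : ∀ l ∈ L, ∀ g, k (l * g) = k g ∧ k (g * l) = k g)
    (γ : G) (x y : G ⧸ L) : k ((γ • x).out⁻¹ * (γ • y).out) = k (x.out⁻¹ * y.out) := by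
  obtain ⟨l, hl, h1⟩ := smul_out L γ x
  obtain ⟨l', hl', h2⟩ := smul_out L γ y
  rw [h1, h2]
  have h3 : (γ * x.out * l)⁻¹ * (γ * y.out * l') = l⁻¹ * ((x.out⁻¹ * y.out) * l') := by group
  rw [h3, (hinv _ (inv_mem hl) _).1, (hinv _ hl' _).2]

variable {L Λ}

theorem kop_inv {k : G → ℂ} (hinv : ∀ l ∈ L, ∀ g, k (l * g) = k g ∧ k (g * l) = k g)
    {f : G ⧸ L → ℂ} (γ : G) (x : G ⧸ L) :
    kop L k f (γ • x) = kop L k (fun y => f (γ • y)) x := by
  unfold kop
  refine (finsum_eq_of_bijective (fun y => γ • y) (MulAction.bijective γ) fun y => ?_).symm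
  rw [ker_smul L hinv]

theorem kop_PV (hst : ∀ x : G ⧸ L, Finite (MulAction.stabilizer Λ x)) {k : G → ℂ}
    (hk : Good L k) {f : G ⧸ L → ℂ} (hf : PV Λ f) : PV Λ (kop L k f) := by
  classical
  constructor
  · intro γ hγ x
    rw [kop_inv hk.inv]
    congr 1
    funext y
    exact hf.1 γ hγ y
  · -- the columns of the kernel are finite
    have hcol : ∀ y : G ⧸ L, {x : G ⧸ L | k (x.out⁻¹ * y.out) ≠ 0}.Finite := by
      intro y
      have h1 := sec_fin L (star_inv hk.inv) (Good.star hk).fin y.out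
      refine h1.subset ?_
      intro x hx
      show star k (y.out⁻¹ * x.out) ≠ 0
      unfold star
      rw [mul_inv_rev, inv_inv]
      intro h
      exact hx ((map_eq_zero _).mp h)
    let S : Finset (MulAction.orbitRel.Quotient Λ (G ⧸ L)) :=
      hf.2.toFinset.biUnion fun o => (hcol o.out).toFinset.image
        fun x => Quotient.mk (MulAction.orbitRel Λ (G ⧸ L)) x
    refine S.finite_toSet.subset ?_
    intro o ho
    have ho' : kop L k f o.out ≠ 0 := ho
    obtain ⟨y, hy⟩ : ∃ y, k (o.out.out⁻¹ * y.out) * f y ≠ 0 := by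
      by_contra hne
      push Not at hne
      exact ho' (by unfold kop; simp [hne])
    have hk0 := left_ne_zero_of_mul hy
    have hf0 := right_ne_zero_of_mul hy
    set o' : MulAction.orbitRel.Quotient Λ (G ⧸ L) := Quotient.mk _ y with ho'
    obtain ⟨l, hl⟩ := (mk_eq_iff y o').mp ho'.symm
    have h2 : f o'.out ≠ 0 := by
      rw [show f o'.out = f y from inv_out hf.1 y]
      exact hf0
    show o ∈ S
    rw [Finset.mem_biUnion]
    refine ⟨o', (Set.Finite.mem_toFinset _).mpr h2, ?_⟩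
    rw [Finset.mem_image]
    refine ⟨l⁻¹ • o.out, ?_, ?_⟩
    · refine (Set.Finite.mem_toFinset _).mpr ?_
      show k ((l⁻¹ • o.out).out⁻¹ * o'.out.out) ≠ 0
      have h3 : o'.out = l⁻¹ • y := eq_inv_smul_iff.mpr hl
      rw [h3]
      have h4 := ker_smul L hk.inv (l⁻¹ : Λ).1 o.out y
      have h5 : ((l⁻¹ : Λ).1 • o.out : G ⧸ L) = l⁻¹ • o.out := rfl
      have h6 : ((l⁻¹ : Λ).1 • y : G ⧸ L) = l⁻¹ • y := rfl
      rw [h5, h6] at h4
      rw [h4]
      exact hk0
    · exact (mk_eq_iff _ _).mpr ⟨l⁻¹, rfl⟩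

theorem kop_adj (hst : ∀ x : G ⧸ L, Finite (MulAction.stabilizer Λ x)) {k : G → ℂ}
    (hk : Good L k) {f g : G ⧸ L → ℂ} (hf : PV Λ f) (hg : PV Λ g) :
    pet Λ (kop L k f) g = pet Λ f (kop L (star k) g) := by
  classical
  -- the sum over `Λ`
  have key : ∀ k : G → ℂ, Good L k → ∀ x x' : G ⧸ L,
      ∑ᶠ y : G ⧸ L, k (x'.out⁻¹ * y.out) * (NN Λ y x : ℂ) =
      ∑ᶠ l : Λ, k (x'.out⁻¹ * (l • x).out) := by
    intro k hk x x'
    have hfin : (Function.support fun p : (G ⧸ L) × Λ =>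
        if p.2 • x = p.1 then k (x'.out⁻¹ * p.1.out) else 0).Finite := by
      have h1 := sec_fin L hk.inv hk.fin x'.out
      have h2 : (⋃ y ∈ {y : G ⧸ L | k (x'.out⁻¹ * y.out) ≠ 0},
          (fun l : Λ => ((y, l) : (G ⧸ L) × Λ)) '' {l : Λ | l • x = y}).Finite :=
        h1.biUnion fun y _ => (NN_finite hst y x).image _
      refine h2.subset ?_
      rintro ⟨y, l⟩ hp
      rw [Function.mem_support] at hp
      by_cases h : l • x = y
      · rw [if_pos h] at hp
        simp only [Set.mem_iUnion]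
        exact ⟨y, hp, ⟨l, h, rfl⟩⟩
      · rw [if_neg h] at hp
        exact absurd rfl hp
    have e1 := finsum_curry _ hfin
    have hfin' : (Function.support fun p : Λ × (G ⧸ L) =>
        if p.1 • x = p.2 then k (x'.out⁻¹ * p.2.out) else 0).Finite := by
      refine (hfin.image Prod.swap).subset ?_
      rintro ⟨l, y⟩ hp
      exact ⟨(y, l), hp, rfl⟩
    have e2 := finsum_curry _ hfin'
    have e3 : ∑ᶠ p : (G ⧸ L) × Λ, (if p.2 • x = p.1 then k (x'.out⁻¹ * p.1.out) else 0) =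
        ∑ᶠ p : Λ × (G ⧸ L), if p.1 • x = p.2 then k (x'.out⁻¹ * p.2.out) else 0 :=
      finsum_eq_of_bijective Prod.swap Prod.swap_bijective fun p => rfl
    have e4 : ∀ y : G ⧸ L, ∑ᶠ l : Λ, (if l • x = y then k (x'.out⁻¹ * y.out) else 0) =
        k (x'.out⁻¹ * y.out) * (NN Λ y x : ℂ) := by
      intro y
      exact (finsum_const (fun l : Λ => l • x = y) (NN_finite hst y x) _).trans rfl
    have e5 : ∀ l : Λ, ∑ᶠ y : G ⧸ L, (if l • x = y then k (x'.out⁻¹ * y.out) else 0) =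
        k (x'.out⁻¹ * (l • x).out) := by
      intro l
      rw [finsum_eq_single _ (l • x) (fun y hy => if_neg fun h => hy h.symm), if_pos rfl]
    simp only [e4] at e1
    simp only [e5] at e2
    rw [← e1, e3, e2]
  refine adj_gen hst (I := G ⧸ L) (fun x y => k (x.out⁻¹ * y.out))
    (fun x y => star k (x.out⁻¹ * y.out)) (fun _ y => y) ?_ ?_ ?_ hf hg
  · intro x
    exact sec_fin L hk.inv hk.fin x.out
  · intro x
    exact sec_fin L (star_inv hk.inv) (Good.star hk).fin x.out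
  · intro x x'
    rw [key k hk, key (star k) (Good.star hk)]
    have hfin : (Function.support fun l : Λ => k (x'.out⁻¹ * (l • x).out)).Finite := by
      have h1 := sec_fin L hk.inv hk.fin x'.out
      refine (h1.biUnion fun y _ => NN_finite hst y x).subset ?_
      intro l hl
      simp only [Set.mem_iUnion]
      exact ⟨l • x, hl, rfl⟩
    have e1 : (starRingEnd ℂ) (∑ᶠ l : Λ, k (x'.out⁻¹ * (l • x).out)) =
        ∑ᶠ l : Λ, (starRingEnd ℂ) (k (x'.out⁻¹ * (l • x).out)) :=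
      AddMonoidHom.map_finsum (starRingEnd ℂ).toAddMonoidHom hfin
    rw [e1]
    refine (finsum_eq_of_bijective (fun l : Λ => l⁻¹) (Equiv.inv Λ).bijective fun l => ?_)
    show star k (x.out⁻¹ * (l • x').out) = (starRingEnd ℂ) (k (x'.out⁻¹ * (l⁻¹ • x).out))
    unfold star
    rw [mul_inv_rev, inv_inv]
    have h4 := ker_smul L hk.inv (l⁻¹ : Λ).1 (l • x') x
    have h5 : ((l⁻¹ : Λ).1 • (l • x') : G ⧸ L) = x' := inv_smul_smul l x'
    rw [h5] at h4
    have h6 : ((l⁻¹ : Λ).1 • x : G ⧸ L) = l⁻¹ • x := rfl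
    rw [h6] at h4
    rw [h4]

end

end Pool.Agent.DEN.H6
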