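import Pool.Agent.Helper22_DEN2.Pub2

/-!
# Hecke functions of level `L` at the place `P`, and the Hecke operators
-/

open scoped BigOperators

namespace Pool.Agent.DEN.Pub

open Pool.Agent.DEN

section
variable {r : ℕ} (C : Matrix (Fin r) (Fin r) ℤ) (K : Type) [Field K]

/-- The subgroup `Γ(L)` of `Γ_P`.  If `L` divides a power of `P`, then `Γ_P / Γ(L)` is
`G(F_P) / K_P(L)`, where `G(F_P)` is the product of the local groups at the places dividing `P` and
`K_P(L)` its principal congruence subgroup of level `L`; the `Γ(L)`-bi-invariant functions on `Γ_P`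
with finite support modulo `Γ(L)` are the full Hecke algebra of level `L` at these places. -/
noncomputable def ΓL (P L : Polynomial K) : Subgroup (GP C K P) :=
  (cong C K 1 L).subgroupOf (arith C K P)

variable {C K}

/-- `κ` is a Hecke function of level `L` and radius `R` at the place `P`: it is a
`Γ(L)`-bi-invariant function on `Γ_P` with finite support modulo `Γ(L)`, supported on the `g` such
that `P ^ R g` and `P ^ R g⁻¹` are integral in the adjoint representation. -/
def HeckeLev (P L : Polynomial K) (κ : GP C K P → ℂ) (R : ℕ) : Prop :=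
  (∀ k ∈ ΓL C K P L, ∀ g, κ (k * g) = κ g ∧ κ (g * k) = κ g) ∧
  {y : GP C K P ⧸ ΓL C K P L | κ y.out ≠ 0}.Finite ∧
  (∀ g, κ g ≠ 0 → ∀ v : LieF C K, Cd (ringA K 1) v →
    Cd (ringA K 1) (polyL K P ^ R • act (inc g) v) ∧
    Cd (ringA K 1) (polyL K P ^ R • act (inc g⁻¹) v))

/-- The Hecke operator `T_κ` at the place `∞`. -/
noncomputable def opInf (κ : G C K → ℂ) (f : X C K → ℂ) : X C K → ℂ :=
  fun x => ∑ᶠ y : X C K, κ ((rep x)⁻¹ * rep y) * f y

/-- The Hecke operator `T_κ` of a Hecke function of level `L` at the place `P`, acting on the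
functions of level `M L` on `X`, `M` prime to `P`, through `Γ_P(M) / Γ(M L) = Γ_P / Γ(L)`. -/
noncomputable def opLev (P M L : Polynomial K) (κ : GP C K P → ℂ) (f : X C K → ℂ) : X C K → ℂ :=
  fun x => ∑ᶠ δ : (cong C K P M) ⧸ (cong C K 1 (M * L)).subgroupOf (cong C K P M),
    κ ⟨δ.out.1, δ.out.2.1⟩ * f ((δ.out.1)⁻¹ • x)

/-- The Petersson norm of a function of level `N`. -/
noncomputable def pnorm (N : Polynomial K) (f : X C K → ℂ) : ℝ :=
  Real.sqrt ‖petersson N f f‖

end

end Pool.Agent.DEN.Pub
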