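import Pool.Agent.Helper6_RAM.Adj
import Pool.Agent.Helper22_DEN.Main

/-!
# Job RAM (helper6): Hecke operators through a quotient `Δ / Λ`
-/

set_option autoImplicit false

open scoped BigOperators

namespace Pool.Agent.DEN.H6

section
variable {G X : Type} [Group G] [MulAction G X] (Λ Δ : Subgroup G)

/-- the Hecke operator of the function `k` on `Δ`, on the `Λ`-invariant functions. -/
noncomputable def tf (k : Δ → ℂ) (f : X → ℂ) : X → ℂ :=
  fun x => ∑ᶠ y : Δ ⧸ Λ.subgroupOf Δ, k y.out * f ((y.out.1)⁻¹ • x)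

/-- the product of the operators, the first one of the list being applied first. -/
noncomputable def tfl : List (Δ → ℂ) → (X → ℂ) → (X → ℂ)
  | [], f => f
  | k :: ks, f => tfl ks (tf Λ Δ k f)

variable {Λ Δ}

theorem out_inv_smul {f : X → ℂ} (hf : ∀ γ ∈ Λ, ∀ x, f (γ • x) = f x) (h : Δ) (x : X) :
    f (((QuotientGroup.mk h : Δ ⧸ Λ.subgroupOf Δ).out.1)⁻¹ • x) = f ((h.1)⁻¹ • x) := by
  obtain ⟨l, hl⟩ := QuotientGroup.mk_out_eq_mul (Λ.subgroupOf Δ) h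
  have hl1 : l.1.1 ∈ Λ := Subgroup.mem_subgroupOf.mp l.2
  rw [hl]
  have h1 : ((h * l.1 : Δ) : G)⁻¹ • x = (l.1.1)⁻¹ • (h.1)⁻¹ • x := by
    rw [Subgroup.coe_mul, mul_inv_rev, mul_smul]
  rw [h1]
  exact hf _ (inv_mem hl1) _

theorem tf_inv (hΛΔ : Λ ≤ Δ) {k : Δ → ℂ} (hk : Good (Λ.subgroupOf Δ) k) {f : X → ℂ}
    (hf : ∀ γ ∈ Λ, ∀ x, f (γ • x) = f x) : ∀ γ ∈ Λ, ∀ x, tf Λ Δ k f (γ • x) = tf Λ Δ k f x := by
  intro γ hγ x
  unfold tf
  set γ' : Δ := ⟨γ, hΛΔ hγ⟩ with hγ'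
  have hγL : γ' ∈ Λ.subgroupOf Δ := Subgroup.mem_subgroupOf.mpr hγ
  refine (finsum_eq_of_bijective (fun y => γ' • y) (MulAction.bijective γ') fun y => ?_).symm
  have h1 : γ' • y = (QuotientGroup.mk (γ' * y.out) : Δ ⧸ Λ.subgroupOf Δ) := by
    conv_lhs => rw [← QuotientGroup.out_eq' y]
    rfl
  have h2 := H26.ker_out (Λ.subgroupOf Δ) k hk.inv 1 (γ' * y.out)
  rw [one_mul, one_mul] at h2
  rw [h1, h2, (hk.inv _ hγL _).1, out_inv_smul hf]
  congr 2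
  rw [Subgroup.coe_mul, mul_inv_rev, mul_smul]
  congr 1
  exact (inv_smul_smul γ x).symm

theorem tf_PV (hΛΔ : Λ ≤ Δ) {k : Δ → ℂ} (hk : Good (Λ.subgroupOf Δ) k) {f : X → ℂ}
    (hf : PV Λ f) : PV Λ (tf Λ Δ k f) := by
  classical
  refine ⟨tf_inv hΛΔ hk hf.1, ?_⟩
  let S : Finset (MulAction.orbitRel.Quotient Λ X) :=
    (hk.fin'.toFinset ×ˢ hf.2.toFinset).image fun p =>
      Quotient.mk (MulAction.orbitRel Λ X) ((p.1.out.1)⁻¹ • p.2.out)
  refine S.finite_toSet.subset ?_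
  intro o ho
  have ho' : tf Λ Δ k f o.out ≠ 0 := ho
  obtain ⟨y, hy⟩ : ∃ y : Δ ⧸ Λ.subgroupOf Δ, k y.out * f ((y.out.1)⁻¹ • o.out) ≠ 0 := by
    by_contra hne
    push Not at hne
    exact ho' (by unfold tf; simp [hne])
  have hk0 := left_ne_zero_of_mul hy
  have hf0 := right_ne_zero_of_mul hy
  set z := (y.out.1)⁻¹ • o.out with hz
  set o' : MulAction.orbitRel.Quotient Λ X := Quotient.mk _ z with ho'
  obtain ⟨l, hl⟩ := (mk_eq_iff z o').mp ho'.symm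
  have h2 : f o'.out ≠ 0 := by
    rw [show f o'.out = f z from inv_out hf.1 z]
    exact hf0
  set l' : Δ := ⟨l.1, hΛΔ l.2⟩ with hl'
  have hl'L : l' ∈ Λ.subgroupOf Δ := Subgroup.mem_subgroupOf.mpr l.2
  set h : Δ := y.out * l' with hh
  have hkh : k h ≠ 0 := by
    rw [hh, (hk.inv _ hl'L _).2]
    exact hk0
  have hx : h.1 • o'.out = o.out := by
    have h3 : h.1 • o'.out = y.out.1 • (l • o'.out) := by
      rw [hh, Subgroup.coe_mul, mul_smul]
      rfl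
    rw [h3, hl, hz, smul_inv_smul]
  obtain ⟨m, hm⟩ := QuotientGroup.mk_out_eq_mul (Λ.subgroupOf Δ) h⁻¹
  show o ∈ S
  refine Finset.mem_image.mpr ⟨(QuotientGroup.mk h⁻¹, o'), ?_, ?_⟩
  · refine Finset.mem_product.mpr ⟨(Set.Finite.mem_toFinset _).mpr ?_,
      (Set.Finite.mem_toFinset _).mpr h2⟩
    show k ((QuotientGroup.mk h⁻¹ : Δ ⧸ Λ.subgroupOf Δ).out)⁻¹ ≠ 0
    rw [hm, mul_inv_rev, inv_inv, (hk.inv _ (inv_mem m.2) _).1]
    exact hkh
  · refine (mk_eq_iff _ _).mpr ⟨⟨(m.1.1)⁻¹, inv_mem (Subgroup.mem_subgroupOf.mp m.2)⟩, ?_⟩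
    show (m.1.1)⁻¹ • o.out = ((QuotientGroup.mk h⁻¹ : Δ ⧸ Λ.subgroupOf Δ).out.1)⁻¹ • o'.out
    rw [hm, Subgroup.coe_mul, mul_inv_rev, mul_smul, Subgroup.coe_inv, inv_inv, hx]

theorem tf_adj (hΛΔ : Λ ≤ Δ) (hst : ∀ x : X, Finite (MulAction.stabilizer Λ x)) {k : Δ → ℂ}
    (hk : Good (Λ.subgroupOf Δ) k) {f g : X → ℂ} (hf : PV Λ f) (hg : PV Λ g) :
    pet Λ (tf Λ Δ k f) g = pet Λ f (tf Λ Δ (star k) g) := by
  classical
  -- the bijection of `Δ` and `Δ / Λ × Λ`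
  let φ : (Δ ⧸ Λ.subgroupOf Δ) × Λ → Δ := fun p => p.1.out * ⟨p.2.1, hΛΔ p.2.2⟩
  have hφ : Function.Bijective φ := by
    constructor
    · rintro ⟨y, l⟩ ⟨y', l'⟩ h
      have h0 : y.out * ⟨l.1, hΛΔ l.2⟩ = y'.out * (⟨l'.1, hΛΔ l'.2⟩ : Δ) := h
      have h1 : y = y' := by
        rw [← QuotientGroup.out_eq' y, ← QuotientGroup.out_eq' y', QuotientGroup.eq,
          Subgroup.mem_subgroupOf]
        have h2 : y.out⁻¹ * y'.out =
            (⟨l.1, hΛΔ l.2⟩ : Δ) * (⟨l'.1, hΛΔ l'.2⟩ : Δ)⁻¹ := by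
          rw [eq_mul_inv_iff_mul_eq, mul_assoc, ← h0, inv_mul_cancel_left]
        rw [h2]
        exact mul_mem l.2 (inv_mem l'.2)
      subst h1
      have h2 := mul_left_cancel h0
      exact Prod.ext rfl (Subtype.ext (congrArg (fun a : Δ => a.1) h2))
    · intro δ
      obtain ⟨m, hm⟩ := QuotientGroup.mk_out_eq_mul (Λ.subgroupOf Δ) δ
      refine ⟨(QuotientGroup.mk δ, ⟨(m.1.1)⁻¹, inv_mem (Subgroup.mem_subgroupOf.mp m.2)⟩), ?_⟩
      show (QuotientGroup.mk δ : Δ ⧸ Λ.subgroupOf Δ).out * _ = δ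
      rw [hm]
      apply Subtype.ext
      show δ.1 * m.1.1 * (m.1.1)⁻¹ = δ.1
      rw [mul_inv_cancel_right]
  have key : ∀ k : Δ → ℂ, Good (Λ.subgroupOf Δ) k → ∀ x x' : X,
      ((Function.support fun δ : Δ => if δ.1 • x = x' then k δ else 0).Finite) ∧
      ∑ᶠ y : Δ ⧸ Λ.subgroupOf Δ, k y.out * (NN Λ ((y.out.1)⁻¹ • x') x : ℂ) =
      ∑ᶠ δ : Δ, if δ.1 • x = x' then k δ else 0 := by
    intro k hk x x'
    have e0 : ∀ p : (Δ ⧸ Λ.subgroupOf Δ) × Λ,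
        (if p.2 • x = (p.1.out.1)⁻¹ • x' then k p.1.out else 0) =
        if (φ p).1 • x = x' then k (φ p) else 0 := by
      rintro ⟨y, l⟩
      have h1 : k (φ (y, l)) = k y.out := (hk.inv _ (Subgroup.mem_subgroupOf.mpr l.2) _).2
      have h2 : (φ (y, l)).1 • x = y.out.1 • (l • x) := by
        show (y.out.1 * l.1) • x = _
        rw [mul_smul]
        rfl
      rw [h1, h2]
      have h3 : (l • x = (y.out.1)⁻¹ • x') ↔ (y.out.1 • (l • x) = x') := eq_inv_smul_iff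
      exact if_congr h3 rfl rfl
    have hfin : (Function.support fun p : (Δ ⧸ Λ.subgroupOf Δ) × Λ =>
        if p.2 • x = (p.1.out.1)⁻¹ • x' then k p.1.out else 0).Finite := by
      have h2 : (⋃ y ∈ {y : Δ ⧸ Λ.subgroupOf Δ | k y.out ≠ 0},
          (fun l : Λ => ((y, l) : (Δ ⧸ Λ.subgroupOf Δ) × Λ)) ''
            {l : Λ | l • x = (y.out.1)⁻¹ • x'}).Finite :=
        hk.fin.biUnion fun y _ => (NN_finite hst _ x).image _
      refine h2.subset ?_
      rintro ⟨y, l⟩ hp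
      rw [Function.mem_support] at hp
      by_cases h : l • x = (y.out.1)⁻¹ • x'
      · rw [if_pos h] at hp
        simp only [Set.mem_iUnion]
        exact ⟨y, hp, ⟨l, h, rfl⟩⟩
      · rw [if_neg h] at hp
        exact absurd rfl hp
    have e1 := finsum_curry _ hfin
    have e4 : ∀ y : Δ ⧸ Λ.subgroupOf Δ,
        ∑ᶠ l : Λ, (if l • x = (y.out.1)⁻¹ • x' then k y.out else 0) =
        k y.out * (NN Λ ((y.out.1)⁻¹ • x') x : ℂ) := by
      intro y
      exact (finsum_const (fun l : Λ => l • x = (y.out.1)⁻¹ • x') (NN_finite hst _ x) _).trans rfl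
    simp only [e4] at e1
    constructor
    · have h3 : (Function.support fun δ : Δ => if δ.1 • x = x' then k δ else 0) =
          φ '' (Function.support fun p : (Δ ⧸ Λ.subgroupOf Δ) × Λ =>
            if p.2 • x = (p.1.out.1)⁻¹ • x' then k p.1.out else 0) := by
        ext δ
        constructor
        · intro hδ
          obtain ⟨p, rfl⟩ := hφ.2 δ
          refine ⟨p, ?_, rfl⟩
          rw [Function.mem_support, e0 p]
          exact hδ
        · rintro ⟨p, hp, rfl⟩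
          rw [Function.mem_support, e0 p] at hp
          exact hp
      rw [h3]
      exact hfin.image φ
    · rw [← e1]
      exact finsum_eq_of_bijective φ hφ e0
  refine adj_gen hst (I := Δ ⧸ Λ.subgroupOf Δ) (fun _ y => k y.out)
    (fun _ y => star k y.out) (fun x y => (y.out.1)⁻¹ • x) (fun _ => hk.fin)
    (fun _ => (Good.star hk).fin) ?_ hf hg
  intro x x'
  rw [(key k hk x x').2, (key (star k) (Good.star hk) x' x).2]
  have e1 : (starRingEnd ℂ) (∑ᶠ δ : Δ, if δ.1 • x = x' then k δ else 0) =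
      ∑ᶠ δ : Δ, (starRingEnd ℂ) (if δ.1 • x = x' then k δ else 0) :=
    AddMonoidHom.map_finsum (starRingEnd ℂ).toAddMonoidHom (key k hk x x').1
  rw [e1]
  refine (finsum_eq_of_bijective (fun δ : Δ => δ⁻¹) (Equiv.inv Δ).bijective fun δ => ?_)
  have h3 : (δ.1 • x' = x) ↔ ((δ⁻¹ : Δ).1 • x = x') := by
    rw [Subgroup.coe_inv, inv_smul_eq_iff, eq_comm]
  by_cases h : δ.1 • x' = x
  · rw [if_pos h, if_pos (h3.mp h)]
    rfl
  · rw [if_neg h, if_neg (fun h' => h (h3.mpr h')), map_zero]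

/-- the operator on `X` and the operator on `Δ / Λ`. -/
theorem kop_tf {k : Δ → ℂ} (hk : Good (Λ.subgroupOf Δ) k) {f : X → ℂ}
    (hf : ∀ γ ∈ Λ, ∀ x, f (γ • x) = f x) (x : X) :
    kop (Λ.subgroupOf Δ) k (fun y => f ((y.out.1)⁻¹ • x)) =
      fun y => tf Λ Δ k f ((y.out.1)⁻¹ • x) := by
  funext x'
  unfold kop tf
  refine (finsum_eq_of_bijective (fun y => x'.out • y)
    (MulAction.bijective x'.out) fun y => ?_).symm
  have h2 : (QuotientGroup.mk (x'.out * y.out) : Δ ⧸ Λ.subgroupOf Δ) = x'.out • y := by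
    conv_rhs => rw [← QuotientGroup.out_eq' y]
    rfl
  have h3 := H22.out_mul_inv_mem (Λ.subgroupOf Δ) (x'.out * y.out)
  rw [h2] at h3
  have h4 := H22.kap_inv' hk.inv (a := x'.out) (b := (x'.out • y).out) (c := x'.out)
    (d := x'.out * y.out) (by simp) h3
  have h5 := out_inv_smul hf (x'.out * y.out) x
  rw [h2] at h5
  show k y.out * f ((y.out.1)⁻¹ • (x'.out.1)⁻¹ • x) =
    k (x'.out⁻¹ * (x'.out • y).out) * f (((x'.out • y).out.1)⁻¹ • x)
  rw [h5, h4]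
  congr 2
  · group
  · rw [smul_smul, Subgroup.coe_mul, mul_inv_rev]

theorem kopl_tfl (hΛΔ : Λ ≤ Δ) (ks : List (Δ → ℂ)) :
    (∀ k ∈ ks, Good (Λ.subgroupOf Δ) k) → ∀ f : X → ℂ,
    (∀ γ ∈ Λ, ∀ x, f (γ • x) = f x) → ∀ x : X,
    kopl (Λ.subgroupOf Δ) ks (fun y => f ((y.out.1)⁻¹ • x)) (QuotientGroup.mk 1) =
      tfl Λ Δ ks f x := by
  induction ks with
  | nil =>
    intro _ f hf x
    show f _ = f x
    rw [out_inv_smul hf]
    simp
  | cons k ks ih =>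
    intro hks f hf x
    have hk := hks k List.mem_cons_self
    show kopl (Λ.subgroupOf Δ) ks (kop (Λ.subgroupOf Δ) k _) _ = tfl Λ Δ ks (tf Λ Δ k f) x
    rw [kop_tf hk hf x]
    exact ih (fun k' hk' => hks k' (List.mem_cons_of_mem _ hk')) _ (tf_inv hΛΔ hk hf) x

end

end Pool.Agent.DEN.H6
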