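import Pool.Agent.Helper22_DEN.Asm
import Pool.Agent.Helper6_RAM.Thf
import Pool.Agent.Helper6_RAM.Opf

/-!
# Job RAM (helper6): the mass of the truncated domain, and the pointwise bounds
-/

set_option autoImplicit false

open scoped BigOperators

namespace Pool.Agent.DEN.H6

open Pool.Agent.DEN

section
variable {r : ℕ} {C : Matrix (Fin r) (Fin r) ℤ} {K : Type} [Field K]

/-- (DSUM) the mass of the truncated domain. -/
theorem dsum [Finite K] (hC : SimplyLaced C) (N : Polynomial K) (hN : N ≠ 0)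
    (B : ℝ) (hB : 0 ≤ B) (S : Finset (MulAction.orbitRel.Quotient (cong C K 1 N) (XX C K)))
    (γ : MulAction.orbitRel.Quotient (cong C K 1 N) (XX C K) → grp C K)
    (hγ : ∀ o, γ o ∈ arith C K 1)
    (l : MulAction.orbitRel.Quotient (cong C K 1 N) (XX C K) → (Fin r → ℤ))
    (g : MulAction.orbitRel.Quotient (cong C K 1 N) (XX C K) → grp C K)
    (hg : ∀ o, IsTor (l o) (g o)) (hl : ∀ o, IsDom C (l o))
    (hx : ∀ o : MulAction.orbitRel.Quotient (cong C K 1 N) (XX C K), o.out = γ o • pt (g o))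
    (hS : ∀ o ∈ S, ∀ i, ip C (al i) (l o) < N.natDegree) :
    ∑ o ∈ S, (B * (Nat.card K : ℝ) ^ dep C (l o)) /
      (Nat.card (MulAction.stabilizer (cong C K 1 N) o.out) : ℝ) ≤
      (N.natDegree : ℝ) ^ r * (cong C K 1 N).relIndex (arith C K 1) * B := by
  classical
  have hidx : ∀ l' ∈ S.image l, ∑ o ∈ S with l o = l',
      (B * (Nat.card K : ℝ) ^ dep C (l o)) /
        (Nat.card (MulAction.stabilizer (cong C K 1 N) o.out) : ℝ) ≤
      (cong C K 1 N).relIndex (arith C K 1) * B := by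
    intro l' hl'
    obtain ⟨o₀, ho₀, rfl⟩ := Finset.mem_image.mp hl'
    have hfinst := (H22.hFin r C hC K).1 (pt (g o₀))
    have hout : ∀ o o' : MulAction.orbitRel.Quotient (cong C K 1 N) (XX C K),
        (∃ δ ∈ cong C K 1 N, δ • o.out = o'.out) → o = o' := by
      rintro o o' ⟨δ, hδ, h⟩
      have h2 : (MulAction.orbitRel (cong C K 1 N) (XX C K)) o'.out o.out := by
        rw [MulAction.orbitRel_apply]
        exact ⟨⟨δ, hδ⟩, h⟩
      have h3 : (Quotient.mk _ o'.out : MulAction.orbitRel.Quotient (cong C K 1 N) (XX C K)) =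
        Quotient.mk _ o.out := Quotient.sound h2
      rw [Quotient.out_eq, Quotient.out_eq] at h3
      exact h3.symm
    have hm := H26.mas (grp C K) (XX C K) (arith C K 1) (cong C K 1 N) (fun x hx => hx.1)
      (fun a ha b hb => (H22.hNrm r C hC K 1 N one_ne_zero hN isCoprime_one_left).1 a ha b hb)
      ((H22.hFin r C hC K).2.2 N hN) (pt (g o₀)) hfinst
      ((S.filter (fun o => l o = l o₀)).image Quotient.out)
      (by
        intro y hy
        obtain ⟨o, ho, rfl⟩ := Finset.mem_image.mp hy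
        rw [Finset.mem_filter] at ho
        refine ⟨γ o, hγ o, ?_⟩
        have e1 : g o = g o₀ := by
          have := hg o
          rw [ho.2] at this
          exact H76.tor_unique this (hg o₀)
        rw [← e1]
        exact hx o)
      (by
        intro y hy y' hy' h
        obtain ⟨o, ho, rfl⟩ := Finset.mem_image.mp hy
        obtain ⟨o', ho', rfl⟩ := Finset.mem_image.mp hy'
        rw [hout o o' h])
    rw [Finset.sum_image (fun a _ b _ h => Quotient.out_injective h)] at hm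
    have hstl := H22.hStl r C hC K (l o₀) (g o₀) (hg o₀) (hl o₀)
    calc ∑ o ∈ S with l o = l o₀, (B * (Nat.card K : ℝ) ^ dep C (l o)) /
        (Nat.card (MulAction.stabilizer (cong C K 1 N) o.out) : ℝ)
        ≤ ∑ o ∈ S with l o = l o₀, B *
          ((Nat.card (MulAction.stabilizer (arith C K 1) (pt (g o₀))) : ℝ) /
          (Nat.card (MulAction.stabilizer (cong C K 1 N) o.out) : ℝ)) := by
          refine Finset.sum_le_sum fun o ho => ?_
          rw [Finset.mem_filter] at ho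
          rw [ho.2, mul_div_assoc]
          refine mul_le_mul_of_nonneg_left ?_ hB
          refine div_le_div_of_nonneg_right ?_ (Nat.cast_nonneg _)
          exact_mod_cast hstl
      _ = B * ∑ o ∈ S with l o = l o₀,
          ((Nat.card (MulAction.stabilizer (arith C K 1) (pt (g o₀))) : ℝ) /
          (Nat.card (MulAction.stabilizer (cong C K 1 N) o.out) : ℝ)) := by
          rw [Finset.mul_sum]
      _ ≤ B * (cong C K 1 N).relIndex (arith C K 1) := mul_le_mul_of_nonneg_left hm hB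
      _ = _ := mul_comm _ _
  have hcard : ((S.image l).card : ℝ) ≤ (N.natDegree : ℝ) ^ r := by
    have := H76.cnt_lset H22.hRS hC N.natDegree (S.image l) (by
      intro l' hl' i
      obtain ⟨o, ho, rfl⟩ := Finset.mem_image.mp hl'
      exact ⟨hl o i, hS o ho i⟩)
    exact_mod_cast this
  calc ∑ o ∈ S, (B * (Nat.card K : ℝ) ^ dep C (l o)) /
      (Nat.card (MulAction.stabilizer (cong C K 1 N) o.out) : ℝ)
      = ∑ l' ∈ S.image l, ∑ o ∈ S with l o = l', (B * (Nat.card K : ℝ) ^ dep C (l o)) /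
      (Nat.card (MulAction.stabilizer (cong C K 1 N) o.out) : ℝ) :=
        (Finset.sum_fiberwise_of_maps_to
          (fun o ho => Finset.mem_image_of_mem l ho) _).symm
    _ ≤ ∑ l' ∈ S.image l, (cong C K 1 N).relIndex (arith C K 1) * B :=
        Finset.sum_le_sum hidx
    _ = (S.image l).card * ((cong C K 1 N).relIndex (arith C K 1) * B) := by
        simp
    _ ≤ (N.natDegree : ℝ) ^ r * ((cong C K 1 N).relIndex (arith C K 1) * B) :=
        mul_le_mul_of_nonneg_right hcard (by positivity)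
    _ = _ := by ring

/-- (THFG) the pointwise bound at a finite place, for functions with finite support. -/
theorem thfG [Finite K] (hC : SimplyLaced C)
    (P M L : Polynomial K) (hP : P ≠ 0) (hM : M ≠ 0) (hPM : IsCoprime P M)
    (hL : ∃ k, L ∣ P ^ k) (hN : M * L ≠ 0) (n : ℕ) (f : Fin n → XX C K → ℂ)
    (hf : ∀ j, PV (cong C K 1 (M * L)) (f j))
    (hpet : ∀ i j, pet (cong C K 1 (M * L)) (f i) (f j) = if i = j then 1 else 0)
    (ρ : ℕ) (hρ : 2 * ρ * P.natDegree < M.natDegree)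
    (c : (cong C K P M) ⧸ (cong C K 1 (M * L)).subgroupOf (cong C K P M) → ℂ)
    (hcf : (Function.support c).Finite)
    (hc : ∀ y, c y ≠ 0 → ∃ a : cong C K P M, y = QuotientGroup.mk a ∧
      ∀ v : LieV C (FF K), Cd (ringA K 1) v →
        Cd (ringA K 1) (polyL K P ^ ρ • (a.1.1 v)) ∧
        Cd (ringA K 1) (polyL K P ^ ρ • ((a⁻¹).1.1 v)))
    (γ : grp C K) (hγ : γ ∈ arith C K 1) (l : Fin r → ℤ) (g : grp C K) (hg : IsTor l g)
    (hl : IsDom C l) :
    ∑ j, ‖∑ᶠ y, c y * f j ((y.out.1)⁻¹ • (γ • pt g))‖ ^ 2 ≤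
      (∑ᶠ y, ‖c y‖ ^ 2) * (Nat.card K : ℝ) ^ dep C l := by
  classical
  have hBd := H22.hBdg r C hC K
  have hNr1 := H22.hNrm r C hC K 1 (M * L) one_ne_zero hN isCoprime_one_left
  have hNr := H22.hNrm r C hC K P M hP hM hPM
  obtain ⟨n1, n2, n3, n4⟩ := nrmL H22.hNrm H22.hF2 H22.hF3 C hC K P M L hP hM hPM hL
  obtain ⟨-, hst, -⟩ := H22.hFin r C hC K
  set B : ℕ := Nat.card K ^ dep C l with hB0
  let Y := (cong C K P M) ⧸ (cong C K 1 (M * L)).subgroupOf (cong C K P M)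
  have hout : ∀ y ∈ hcf.toFinset, ∀ v : LieV C (FF K), Cd (ringA K 1 : Set (FF K)) v →
      Cd (ringA K 1 : Set (FF K)) (polyL K P ^ ρ • ((y : Y).out.1.1 v)) ∧
      Cd (ringA K 1 : Set (FF K)) (polyL K P ^ ρ • (((y : Y).out⁻¹).1.1 v)) := by
    intro y hy v hv
    obtain ⟨a, hya, ha⟩ := hc y (by rw [Set.Finite.mem_toFinset] at hy; exact hy)
    obtain ⟨h, hh⟩ := QuotientGroup.mk_out_eq_mul
      ((cong C K 1 (M * L)).subgroupOf (cong C K P M)) a
    rw [← hya] at hh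
    have hh1 : h.1.1 ∈ cong C K 1 (M * L) := Subgroup.mem_subgroupOf.mp h.2
    constructor
    · have h1 : (y : Y).out.1.1 v = a.1.1 (h.1.1.1 v) := by
        rw [hh]; rfl
      rw [h1]
      exact (ha _ (hNr1.2.2.2.2.2 _ hh1.1 v hv)).1
    · have h1 : ((y : Y).out⁻¹).1.1 v = (h.1.1⁻¹ : grp C K).1 ((a⁻¹).1.1 v) := by
        rw [hh, mul_inv_rev]; rfl
      rw [h1, ← map_smul]
      exact hNr1.2.2.2.2.2 _ (inv_mem hh1.1) _ (ha v hv).2
  have key : ∀ i ∈ hcf.toFinset, ∀ Q : Finset (cong C K 1 (M * L) × Y),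
      (∀ p ∈ Q, p.2 ∈ hcf.toFinset ∧
        p.1 • (((i : Y).out.1)⁻¹ • (γ • pt g)) = ((p.2 : Y).out.1)⁻¹ • (γ • pt g)) →
        Q.card ≤ B := by
    intro y hy Q hQ
    let s0 : cong C K 1 (M * L) × Y → grp C K :=
      fun p => (p.2 : Y).out.1 * p.1.1 * (y : Y).out.1⁻¹
    let φ : cong C K 1 (M * L) × Y → grp C K := fun p => γ⁻¹ * s0 p * γ
    have hs0 : ∀ p ∈ Q, s0 p ∈ cong C K P M := by
      intro p hp
      exact mul_mem (mul_mem (p.2 : Y).out.2 (n1 p.1.2)) (inv_mem (y : Y).out.2)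
    have hinj : Set.InjOn φ (Q : Set (cong C K 1 (M * L) × Y)) := by
      intro p hp p' hp' h
      have h1 : s0 p = s0 p' := mul_left_cancel (mul_right_cancel h)
      have h2 : (p.2 : Y).out.1 * p.1.1 = (p'.2 : Y).out.1 * p'.1.1 := mul_right_cancel h1
      have h3 : p.2 = p'.2 := by
        rw [← QuotientGroup.out_eq' p.2, ← QuotientGroup.out_eq' p'.2]
        rw [QuotientGroup.eq, Subgroup.mem_subgroupOf]
        have h4 : (((p.2 : Y).out⁻¹ * (p'.2 : Y).out : cong C K P M) : grp C K) =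
            p.1.1 * p'.1.1⁻¹ := by
          push_cast
          rw [eq_mul_inv_iff_mul_eq, mul_assoc, ← h2]
          group
        rw [h4]
        exact mul_mem p.1.2 (inv_mem p'.1.2)
      rw [h3] at h2
      exact Prod.ext (Subtype.ext (mul_left_cancel h2)) h3
    rw [← Finset.card_image_of_injOn hinj]
    refine H22.hScs r C hC K P M hP hM hPM l g hg hl 0 (2 * ρ)
      (by simpa using hρ) (Q.image φ) ?_ ?_ ?_
    · intro s hs
      obtain ⟨p, hp, rfl⟩ := Finset.mem_image.mp hs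
      have := hNr.1 γ⁻¹ (hNr.2.1 (inv_mem hγ)) _ (hs0 p hp)
      rwa [inv_inv] at this
    · intro s hs
      obtain ⟨p, hp, rfl⟩ := Finset.mem_image.mp hs
      obtain ⟨hp1, hp2⟩ := hQ p hp
      have h1 : (QuotientGroup.mk (p.1.1 * ((y : Y).out.1⁻¹ * (γ * g))) : XX C K) =
          QuotientGroup.mk ((p.2 : Y).out.1⁻¹ * (γ * g)) := hp2
      have h2 := QuotientGroup.eq.mp h1.symm
      have h3 := ((hBd.2.2 _).mp h2).1
      have h4 : g⁻¹ * (γ⁻¹ * s0 p * γ) * g =
          ((p.2 : Y).out.1⁻¹ * (γ * g))⁻¹ * (p.1.1 * ((y : Y).out.1⁻¹ * (γ * g))) := by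
        simp only [s0]
        group
      show bnd ((0 : ℕ) : ℤ) (g⁻¹ * (γ⁻¹ * s0 p * γ) * g)
      rw [h4]
      exact h3
    · intro s hs v hv
      obtain ⟨p, hp, rfl⟩ := Finset.mem_image.mp hs
      obtain ⟨hp1, hp2⟩ := hQ p hp
      have h1 : Cd (ringA K 1 : Set (FF K)) (γ.1 v) := hNr1.2.2.2.2.2 _ hγ v hv
      have h2 := (hout y hy _ h1).2
      have h3 := hNr1.2.2.2.2.2 _ p.1.2.1 _ h2
      have h4 := (hout p.2 hp1 _ h3).1
      have h5 := hNr1.2.2.2.2.2 _ (inv_mem hγ) _ h4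
      have h6 : polyL K P ^ (2 * ρ) • (φ p).1 v = (γ⁻¹ : grp C K).1 (polyL K P ^ ρ •
          ((p.2 : Y).out.1.1 (p.1.1.1 (polyL K P ^ ρ • (((y : Y).out⁻¹).1.1 (γ.1 v)))))) := by
        rw [map_smul, map_smul, map_smul, map_smul, smul_smul, ← pow_add, two_mul]
        rfl
      rw [h6]
      exact h5
  have hB := H26.bes (cong C K 1 (M * L)) (XX C K) (fun x => hst (M * L) x) n f
    (fun j γ x => (hf j).1 γ.1 γ.2 x) (fun j => (hf j).2)
    hpet Y hcf.toFinset (fun δ => ((δ : Y).out.1)⁻¹ • (γ • pt g)) c B key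
  have h2 : ∀ j, ∑ᶠ y, c y * f j ((y.out.1)⁻¹ • (γ • pt g)) =
      ∑ y ∈ hcf.toFinset, c y * f j (((y : Y).out.1)⁻¹ • (γ • pt g)) := fun j =>
    H26.finsum_S c (fun y => f j (((y : Y).out.1)⁻¹ • (γ • pt g))) hcf
  rw [H26.finsum_N c hcf, Finset.sum_congr rfl fun j _ => by rw [h2 j]]
  refine hB.trans_eq ?_
  rw [hB0]
  push_cast
  ring

/-- (THIG) the pointwise bound at `∞`, for functions with finite support. -/
theorem thiG [Finite K] (hC : SimplyLaced C) (N : Polynomial K) (hN : N ≠ 0)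
    (n : ℕ) (f : Fin n → XX C K → ℂ) (hf : ∀ j, PV (cong C K 1 N) (f j))
    (hpet : ∀ i j, pet (cong C K 1 N) (f i) (f j) = if i = j then 1 else 0)
    (ρ : ℕ) (hρ : 2 * ρ < N.natDegree) (c : XX C K → ℂ) (hcf : (Function.support c).Finite)
    (hc : ∀ y, c y ≠ 0 → ∃ a : grp C K, y = pt a ∧ bnd ρ a ∧ bnd ρ a⁻¹)
    (γ : grp C K) (hγ : γ ∈ arith C K 1) (l : Fin r → ℤ) (g : grp C K) (hg : IsTor l g)
    (hl : IsDom C l) :
    ∑ j, ‖∑ᶠ y, c y * f j ((γ * g) • y)‖ ^ 2 ≤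
      (∑ᶠ y, ‖c y‖ ^ 2) * (Nat.card K : ℝ) ^ dep C l := by
  classical
  have hBd := H22.hBdg r C hC K
  have hNr := H22.hNrm r C hC K 1 N one_ne_zero hN isCoprime_one_left
  obtain ⟨-, hst, -⟩ := H22.hFin r C hC K
  set M : ℕ := Nat.card K ^ dep C l with hM
  have key : ∀ i ∈ hcf.toFinset, ∀ Q : Finset (cong C K 1 N × XX C K),
      (∀ p ∈ Q, p.2 ∈ hcf.toFinset ∧ p.1 • ((γ * g) • i) = (γ * g) • p.2) → Q.card ≤ M := by
    intro y hy Q hQ
    obtain ⟨a, hya, ha1, ha2⟩ := hc y (by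
      rw [Set.Finite.mem_toFinset] at hy; exact hy)
    let φ : cong C K 1 N × XX C K → grp C K := fun p => γ⁻¹ * p.1.1 * γ
    have hinj : Set.InjOn φ (Q : Set (cong C K 1 N × XX C K)) := by
      intro p hp p' hp' h
      have h1 : p.1.1 = p'.1.1 := mul_left_cancel (mul_right_cancel h)
      have h2 : p.1 = p'.1 := Subtype.ext h1
      have h3 := (hQ p hp).2
      have h4 := (hQ p' hp').2
      rw [h2, h4] at h3
      exact Prod.ext h2 (smul_left_cancel _ h3).symm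
    rw [← Finset.card_image_of_injOn hinj]
    refine H22.hScs r C hC K 1 N one_ne_zero hN isCoprime_one_left l g hg hl (2 * ρ) 0
      (by simpa using hρ) (Q.image φ) ?_ ?_ ?_
    · intro s hs
      obtain ⟨p, hp, rfl⟩ := Finset.mem_image.mp hs
      have := hNr.1 γ⁻¹ (inv_mem hγ) p.1.1 p.1.2
      rwa [inv_inv] at this
    · intro s hs
      obtain ⟨p, hp, rfl⟩ := Finset.mem_image.mp hs
      obtain ⟨hp1, hp2⟩ := hQ p hp
      obtain ⟨a', hya', ha1', ha2'⟩ := hc p.2 (by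
        rw [Set.Finite.mem_toFinset] at hp1; exact hp1)
      have h1 : (QuotientGroup.mk (p.1.1 * (γ * g * a)) : XX C K) =
          QuotientGroup.mk (γ * g * a') := by
        rw [hya, hya'] at hp2
        exact hp2
      have h2 : (γ * g * a')⁻¹ * (p.1.1 * (γ * g * a)) ∈ maxK C K := QuotientGroup.eq.mp h1.symm
      have h3 := ((hBd.2.2 _).mp h2).1
      have h4 : g⁻¹ * (γ⁻¹ * p.1.1 * γ) * g =
          a' * ((γ * g * a')⁻¹ * (p.1.1 * (γ * g * a))) * a⁻¹ := by group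
      show bnd ((2 * ρ : ℕ) : ℤ) (g⁻¹ * (γ⁻¹ * p.1.1 * γ) * g)
      rw [h4]
      have h5 := hBd.2.1 _ _ _ _ (hBd.2.1 _ _ _ _ ha1' h3) ha2
      have h6 : (ρ : ℤ) + 0 + ρ = ((2 * ρ : ℕ) : ℤ) := by push_cast; ring
      rwa [h6] at h5
    · intro s hs v hv
      obtain ⟨p, hp, rfl⟩ := Finset.mem_image.mp hs
      rw [pow_zero, one_smul]
      have h1 := hNr.1 γ⁻¹ (inv_mem hγ) p.1.1 p.1.2
      rw [inv_inv] at h1
      exact hNr.2.2.2.2.2 _ h1.1 v hv
  have hB := H26.bes (cong C K 1 N) (XX C K) (fun x => hst N x) n f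
    (fun j γ x => (hf j).1 γ.1 γ.2 x) (fun j => (hf j).2)
    hpet (XX C K) hcf.toFinset (fun y => (γ * g) • y) c M key
  have h2 : ∀ j, ∑ᶠ y, c y * f j ((γ * g) • y) =
      ∑ y ∈ hcf.toFinset, c y * f j ((γ * g) • y) := fun j =>
    H26.finsum_S c (fun y => f j ((γ * g) • y)) hcf
  rw [H26.finsum_N c hcf, Finset.sum_congr rfl fun j _ => by rw [h2 j]]
  refine hB.trans_eq ?_
  rw [hM]
  push_cast
  ring

end

end Pool.Agent.DEN.H6
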