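import Pool.Agent.Helper22_DEN2.Main2
import Pool.Agent.Helper6_RAM.Sing

/-!
# Job RAM (helper6): the final statements, all places
-/

set_option autoImplicit false

open scoped BigOperators

namespace Pool.Agent.DEN.H6

open Pool.Agent.DEN

section
variable {r : ℕ} {C : Matrix (Fin r) (Fin r) ℤ} {K : Type} [Field K]

/-- `T_κ f` at `∞` (working version). -/
noncomputable def opInf (κ : grp C K → ℂ) (f : XX C K → ℂ) : XX C K → ℂ :=
  fun x => ∑ᶠ y : XX C K, κ (x.out⁻¹ * y.out) * f y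

/-- `T_κ f` at `P` (working version). -/
noncomputable def opLev (P M L : Polynomial K) (κ : arith C K P → ℂ) (f : XX C K → ℂ) :
    XX C K → ℂ :=
  fun x => ∑ᶠ δ : (cong C K P M) ⧸ (cong C K 1 (M * L)).subgroupOf (cong C K P M),
    κ ⟨δ.out.1, δ.out.2.1⟩ * f ((δ.out.1)⁻¹ • x)

/-- The Petersson norm (working version). -/
noncomputable def pnorm (N : Polynomial K) (f : XX C K → ℂ) : ℝ :=
  Real.sqrt ‖petersson N f f‖

theorem pnorm_low {N : Polynomial K} {f : XX C K → ℂ} (hf : PV (cong C K 1 N) f) {a : ℝ}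
    (ha : 0 ≤ a) (h : a ≤ pnorm N f) : a ^ 2 ≤ nsq (cong C K 1 N) f := by
  have h1 : petersson N f f = pet (cong C K 1 N) f f := rfl
  unfold pnorm at h
  rw [h1, pet_self hf, Complex.norm_real, Real.norm_of_nonneg (nsq_nonneg f)] at h
  calc a ^ 2 ≤ Real.sqrt (nsq (cong C K 1 N) f) ^ 2 := pow_le_pow_left₀ ha h 2
    _ = _ := Real.sq_sqrt (nsq_nonneg f)

end

/-- The density theorem at all places. -/
theorem finalB {r : ℕ} (hr : 0 < r) (C : Matrix (Fin r) (Fin r) ℤ) (hC : SimplyLaced C)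
    (K : Type) [Field K] [Finite K] (N : Polynomial K) (hN : N ≠ 0)
    (n : ℕ) (f : Fin n → XX C K → ℂ) (hcusp : ∀ j, IsCusp N (f j))
    (horth : ∀ i j, petersson N (f i) (f j) = if i = j then 1 else 0) (R : ℕ) (hR : 0 < R) :
    (∀ κ : grp C K → ℂ, HeckeInf κ R →
      (∀ lam : Fin n → ℂ, (∀ j, opInf κ (f j) = lam j • f j) → 2 * R < N.natDegree →
        ∑ j, ‖lam j‖ ^ 2 ≤
          (N.natDegree : ℝ) ^ r * (cong C K 1 N).relIndex (arith C K 1) *
            normSq (maxK C K) κ) ∧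
      (∀ τ σ : ℝ, 0 < τ → 0 ≤ σ → NormLE (maxK C K) κ τ →
        (∀ j, (Nat.card K : ℝ) ^ (σ * R) * τ ≤ pnorm N (opInf κ (f j))) →
        (n : ℝ) ≤ (N.natDegree : ℝ) ^ r * (cong C K 1 N).relIndex (arith C K 1) *
          (Nat.card K : ℝ) ^ (-(σ * ((N.natDegree : ℝ) - 2 * R))))) ∧
    (∀ P M L : Polynomial K, 0 < P.natDegree → IsCoprime P M → (∃ k : ℕ, L ∣ P ^ k) →
      N = M * L → ∀ κ : arith C K P → ℂ, HeckeLev P L κ R →
      (∀ lam : Fin n → ℂ, (∀ j, opLev P M L κ (f j) = lam j • f j) →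
        2 * (R * P.natDegree) < M.natDegree →
        ∑ j, ‖lam j‖ ^ 2 ≤
          (N.natDegree : ℝ) ^ r * (cong C K 1 N).relIndex (arith C K 1) *
            normSq ((cong C K 1 L).subgroupOf (arith C K P)) κ) ∧
      (∀ τ σ : ℝ, 0 < τ → 0 ≤ σ → NormLE ((cong C K 1 L).subgroupOf (arith C K P)) κ τ →
        (∀ j, (Nat.card K : ℝ) ^ (σ * (R * P.natDegree : ℕ)) * τ ≤
          pnorm N (opLev P M L κ (f j))) →
        (n : ℝ) ≤ (N.natDegree : ℝ) ^ r * (cong C K 1 N).relIndex (arith C K 1) *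
          (Nat.card K : ℝ) ^ (-(σ * ((M.natDegree : ℝ) - 2 * (R * P.natDegree : ℕ)))))) := by
  have hst : ∀ x : XX C K, Finite (MulAction.stabilizer (cong C K 1 N) x) := fun x =>
    (H22.hFin r C hC K).2.1 N x
  refine ⟨fun κ hκ => ⟨fun lam hlam h2 => ?_, fun τ σ hτ hσ hnorm hlow => ?_⟩, ?_⟩
  · exact ((H22.final H22.hBir H22.hVan H22.hBdg H22.hCnt H22.hThi H22.hThf H22.hTrf H26.ker hr C
      hC K N hN n f hcusp horth lam R hR).1 κ hκ fun j x => congrFun (hlam j) x).1 h2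
  · refine infL2 hr hC N hN n f hcusp horth R hR κ hκ τ σ hτ hσ hnorm fun j => ?_
    exact pnorm_low (kop_PV hst (good_of_norm hκ.1 hκ.2.1 hnorm) (cusp_PV hC N hN (f j) (hcusp j)))
      (by positivity) (hlow j)
  · rintro P M L hP hPM hL rfl κ hκ
    have hP0 : P ≠ 0 := by
      rintro rfl
      simp at hP
    refine ⟨fun lam hlam h2 => ?_, fun τ σ hτ hσ hnorm hlow => ?_⟩
    · exact (finL hr hC P M L hP hPM hL hN n f hcusp horth lam R hR κ hκ
        fun j x => congrFun (hlam j) x).1 h2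
    · obtain ⟨n1, -, -, -⟩ := nrmL H22.hNrm H22.hF2 H22.hF3 C hC K P M L hP0
        (left_ne_zero_of_mul hN) hPM hL
      obtain ⟨t1, t2, -, t4⟩ := trfL H22.hNrm H22.hF2 H22.hF3 C hC K P M L hP0
        (left_ne_zero_of_mul hN) hPM hL κ R hκ
      refine finL2 hr hC P M L hP hPM hL hN n f hcusp horth R hR κ hκ τ σ hτ hσ hnorm fun j => ?_
      exact pnorm_low (tf_PV n1 (good_of_norm t1 t2 (t4 τ hnorm))
        (cusp_PV hC (M * L) hN (f j) (hcusp j))) (by positivity) (hlow j)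

/-- The proportion theorem at all places. -/
theorem finalA {r : ℕ} (hr : 0 < r) (C : Matrix (Fin r) (Fin r) ℤ) (hC : SimplyLaced C)
    (K : Type) [Field K] [Finite K] (P₀ N : Polynomial K) (hP₀ : Irreducible P₀) (hN : N ≠ 0)
    (hPN : P₀ ^ 4 ∣ N) :
    (∀ f : XX C K → ℂ, f ∈ Submodule.span ℂ {f : XX C K → ℂ | IsCusp N f} ↔ IsCusp N f) ∧
    Module.Finite ℂ (Submodule.span ℂ {f : XX C K → ℂ | IsCusp N f}) ∧
    (cong C K 1 N).relIndex (arith C K 1) ≤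
      Nat.card K ^ ((2 * P₀.natDegree + 1) * (r + Nat.card (Rt C)) ^ 2) *
        Module.finrank ℂ (Submodule.span ℂ {f : XX C K → ℂ | IsCusp N f}) ∧
    ∀ (n : ℕ) (f : Fin n → XX C K → ℂ), (∀ j, IsCusp N (f j)) →
      (∀ i j, petersson N (f i) (f j) = if i = j then 1 else 0) →
      ∀ R : ℕ, 0 < R → ∀ τ σ : ℝ, 0 < τ → 0 ≤ σ →
      (∀ κ : grp C K → ℂ, HeckeInf κ R → NormLE (maxK C K) κ τ →
        (∀ j, (Nat.card K : ℝ) ^ (σ * R) * τ ≤ pnorm N (opInf κ (f j))) →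
        (n : ℝ) ≤ (N.natDegree : ℝ) ^ r *
          (Nat.card K : ℝ) ^ ((2 * P₀.natDegree + 1) * (r + Nat.card (Rt C)) ^ 2) *
          (Nat.card K : ℝ) ^ (-(σ * ((N.natDegree : ℝ) - 2 * R))) *
          Module.finrank ℂ (Submodule.span ℂ {f : XX C K → ℂ | IsCusp N f})) ∧
      (∀ P M L : Polynomial K, 0 < P.natDegree → IsCoprime P M → (∃ k : ℕ, L ∣ P ^ k) →
        N = M * L → ∀ κ : arith C K P → ℂ, HeckeLev P L κ R →
        NormLE ((cong C K 1 L).subgroupOf (arith C K P)) κ τ →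
        (∀ j, (Nat.card K : ℝ) ^ (σ * (R * P.natDegree : ℕ)) * τ ≤
          pnorm N (opLev P M L κ (f j))) →
        (n : ℝ) ≤ (N.natDegree : ℝ) ^ r *
          (Nat.card K : ℝ) ^ ((2 * P₀.natDegree + 1) * (r + Nat.card (Rt C)) ^ 2) *
          (Nat.card K : ℝ) ^ (-(σ * ((M.natDegree : ℝ) - 2 * (R * P.natDegree : ℕ)))) *
          Module.finrank ℂ (Submodule.span ℂ {f : XX C K → ℂ | IsCusp N f})) := by
  obtain ⟨h1, h2, -⟩ := H222.hFdm r C hC K N hN
  have h3 := H222.hLow r C hC K P₀ N hP₀.prime hN hPN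
  refine ⟨h1, h2, h3, ?_⟩
  intro n f hcusp horth R hR τ σ hτ hσ
  have h4 := finalB hr C hC K N hN n f hcusp horth R hR
  have h5 : (((cong C K 1 N).relIndex (arith C K 1) : ℕ) : ℝ) ≤
      (Nat.card K : ℝ) ^ ((2 * P₀.natDegree + 1) * (r + Nat.card (Rt C)) ^ 2) *
        (Module.finrank ℂ (Submodule.span ℂ {f : XX C K → ℂ | IsCusp N f}) : ℝ) := by
    exact_mod_cast h3
  refine ⟨fun κ hκ hnorm hl => ?_, fun P M L hP hPM hL hNML κ hκ hnorm hl => ?_⟩
  · have h6 := (h4.1 κ hκ).2 τ σ hτ hσ hnorm hl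
    exact H222.mul3 h6 h5 (by positivity) (by positivity) rfl
  · have h6 := (h4.2 P M L hP hPM hL hNML κ hκ).2 τ σ hτ hσ hnorm hl
    exact H222.mul3 h6 h5 (by positivity) (by positivity) rfl

end Pool.Agent.DEN.H6
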