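import Pool.Agent.Helper26_DEN.Ker
import Pool.Agent.Helper6_RAM.Abs

/-!
# Job RAM (helper6): products of kernels on `H / L`
-/

set_option autoImplicit false

open scoped BigOperators

namespace Pool.Agent.DEN.H6

section
variable {H : Type} [Group H] (L : Subgroup H)

/-- An `L`-bi-invariant function with finite support modulo `L` on both sides. -/
structure Good (k : H → ℂ) : Prop where
  inv : ∀ l ∈ L, ∀ g, k (l * g) = k g ∧ k (g * l) = k g
  fin : {y : H ⧸ L | k y.out ≠ 0}.Finite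
  fin' : {y : H ⧸ L | k (y.out)⁻¹ ≠ 0}.Finite

/-- the adjoint function. -/
noncomputable def star (k : H → ℂ) : H → ℂ := fun g => (starRingEnd ℂ) (k g⁻¹)

/-- the operator with kernel `k (x⁻¹ y)`. -/
noncomputable def kop (k : H → ℂ) (F : H ⧸ L → ℂ) : H ⧸ L → ℂ :=
  fun x => ∑ᶠ y : H ⧸ L, k (x.out⁻¹ * y.out) * F y

/-- the product of the operators, the first one of the list being applied first. -/
noncomputable def kopl : List (H → ℂ) → (H ⧸ L → ℂ) → (H ⧸ L → ℂ)
  | [], F => F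
  | k :: ks, F => kopl ks (kop L k F)

variable {L}

theorem star_star (k : H → ℂ) : star (star k) = k := by
  funext g
  simp [star]

theorem star_inv {k : H → ℂ} (hk : ∀ l ∈ L, ∀ g, k (l * g) = k g ∧ k (g * l) = k g) :
    ∀ l ∈ L, ∀ g, star k (l * g) = star k g ∧ star k (g * l) = star k g := by
  intro l hl g
  unfold star
  rw [mul_inv_rev, mul_inv_rev, (hk _ (inv_mem hl) _).2, (hk _ (inv_mem hl) _).1]
  exact ⟨rfl, rfl⟩

theorem Good.star {k : H → ℂ} (hk : Good L k) : Good L (star k) := by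
  refine ⟨star_inv hk.inv, ?_, ?_⟩
  · refine hk.fin'.subset ?_
    intro y hy h
    exact hy (by simp [H6.star, h])
  · refine hk.fin.subset ?_
    intro y hy h
    exact hy (by simp [H6.star, h])

/-- `NormLE` passes to the adjoint. -/
theorem normLE_star {k : H → ℂ} {τ : ℝ} (h : NormLE L k τ) : NormLE L (star k) τ := by
  intro S T φ
  have hstar : ∀ x y : H ⧸ L, star k (x.out⁻¹ * y.out) = (starRingEnd ℂ) (k (y.out⁻¹ * x.out)) := by
    intro x y
    unfold star
    rw [mul_inv_rev, inv_inv]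
  simp only [hstar]
  set ψ : H ⧸ L → ℂ := fun x => ∑ y ∈ T, (starRingEnd ℂ) (k (y.out⁻¹ * x.out)) * φ y with hψ
  have h1 := h T S ψ
  set B := ∑ x ∈ S, ‖ψ x‖ ^ 2 with hB
  set A := ∑ y ∈ T, ‖φ y‖ ^ 2 with hA
  have hA0 : 0 ≤ A := Finset.sum_nonneg fun _ _ => by positivity
  have hB0 : 0 ≤ B := Finset.sum_nonneg fun _ _ => by positivity
  have h2 : (B : ℂ) = ∑ y ∈ T, (starRingEnd ℂ) (φ y) * ∑ x ∈ S, k (y.out⁻¹ * x.out) * ψ x := by
    have : (B : ℂ) = ∑ x ∈ S, (starRingEnd ℂ) (ψ x) * ψ x := by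
      rw [hB]
      push_cast
      refine Finset.sum_congr rfl fun y _ => ?_
      rw [← Complex.normSq_eq_conj_mul_self, Complex.normSq_eq_norm_sq]
      push_cast
      rfl
    rw [this]
    have h3 : ∀ x, (starRingEnd ℂ) (ψ x) = ∑ y ∈ T, k (y.out⁻¹ * x.out) * (starRingEnd ℂ) (φ y) := by
      intro x
      rw [hψ, map_sum]
      refine Finset.sum_congr rfl fun y _ => ?_
      rw [map_mul, Complex.conj_conj]
    simp only [Finset.mul_sum]
    rw [Finset.sum_comm]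
    refine Finset.sum_congr rfl fun x _ => ?_
    rw [h3, Finset.sum_mul]
    refine Finset.sum_congr rfl fun y _ => ?_
    ring
  have h3 : B ≤ ∑ y ∈ T, ‖φ y‖ * ‖∑ x ∈ S, k (y.out⁻¹ * x.out) * ψ x‖ := by
    have : B = ‖(B : ℂ)‖ := by
      rw [Complex.norm_real, Real.norm_of_nonneg hB0]
    rw [this, h2]
    refine (norm_sum_le _ _).trans (Finset.sum_le_sum fun x _ => ?_)
    rw [norm_mul, RCLike.norm_conj]
  have h4 : B ^ 2 ≤ A * (τ ^ 2 * B) := by
    have h5 := Finset.sum_mul_sq_le_sq_mul_sq T (fun y => ‖φ y‖)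
      (fun y => ‖∑ x ∈ S, k (y.out⁻¹ * x.out) * ψ x‖)
    calc B ^ 2 ≤ (∑ y ∈ T, ‖φ y‖ * ‖∑ x ∈ S, k (y.out⁻¹ * x.out) * ψ x‖) ^ 2 := by
          apply pow_le_pow_left₀ hB0 h3
      _ ≤ _ := h5
      _ ≤ A * (τ ^ 2 * B) := by
          apply mul_le_mul_of_nonneg_left h1 hA0
  show B ≤ τ ^ 2 * A
  rcases hB0.eq_or_lt with h0 | h0
  · rw [← h0]; positivity
  · have : B * B ≤ (τ ^ 2 * A) * B := by nlinarith
    exact le_of_mul_le_mul_right this h0

/-- A Hecke function with an operator norm has finite support modulo `L` on both sides. -/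
theorem good_of_norm {k : H → ℂ} {τ : ℝ}
    (hinv : ∀ l ∈ L, ∀ g, k (l * g) = k g ∧ k (g * l) = k g)
    (hfin : {y : H ⧸ L | k y.out ≠ 0}.Finite) (h : NormLE L k τ) : Good L k := by
  classical
  refine ⟨hinv, hfin, ?_⟩
  -- the values of `k` are bounded below on the support
  obtain ⟨ε, hε, hεk⟩ : ∃ ε : ℝ, 0 < ε ∧ ∀ g, k g ≠ 0 → ε ≤ ‖k g‖ ^ 2 := by
    rcases hfin.toFinset.eq_empty_or_nonempty with h0 | h0
    · refine ⟨1, one_pos, fun g hg => absurd ?_ hg⟩
      by_contra hne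
      have h1 : (QuotientGroup.mk g : H ⧸ L) ∈ hfin.toFinset := by
        rw [Set.Finite.mem_toFinset]
        show k (QuotientGroup.mk g : H ⧸ L).out ≠ 0
        have h2 := H26.ker_out L k hinv 1 g
        rw [one_mul, one_mul] at h2
        rw [h2]
        exact hne
      rw [h0] at h1
      exact absurd h1 (Finset.notMem_empty _)
    · obtain ⟨y0, hy0, hmin⟩ := hfin.toFinset.exists_min_image (fun y => ‖k y.out‖ ^ 2) h0
      rw [Set.Finite.mem_toFinset] at hy0
      have hy0' : k y0.out ≠ 0 := hy0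
      refine ⟨‖k y0.out‖ ^ 2, by positivity, fun g hg => ?_⟩
      have h2 := H26.ker_out L k hinv 1 g
      rw [one_mul, one_mul] at h2
      have h1 : (QuotientGroup.mk g : H ⧸ L) ∈ hfin.toFinset := by
        rw [Set.Finite.mem_toFinset]
        show k (QuotientGroup.mk g : H ⧸ L).out ≠ 0
        rw [h2]
        exact hg
      have h3 := hmin _ h1
      rwa [h2] at h3
  by_contra hinf
  have hinf' : {y : H ⧸ L | k (y.out)⁻¹ ≠ 0}.Infinite := hinf
  obtain ⟨m, hm⟩ := exists_nat_gt (τ ^ 2 / ε)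
  obtain ⟨S, hS, hSc⟩ := hinf'.exists_subset_card_eq m
  have h1 := h S {(QuotientGroup.mk 1 : H ⧸ L)} (fun _ => 1)
  simp only [Finset.sum_singleton, mul_one, norm_one, one_pow] at h1
  have h2 : ∀ x ∈ S, ε ≤ ‖k (x.out⁻¹ * (QuotientGroup.mk 1 : H ⧸ L).out)‖ ^ 2 := by
    intro x hx
    apply hεk
    rw [H26.ker_out L k hinv, mul_one]
    exact hS hx
  have h3 : (m : ℝ) * ε ≤ τ ^ 2 := by
    calc (m : ℝ) * ε = ∑ _x ∈ S, ε := by rw [Finset.sum_const, hSc, nsmul_eq_mul]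
      _ ≤ _ := Finset.sum_le_sum h2
      _ ≤ _ := h1
  rw [div_lt_iff₀ hε] at hm
  linarith

/-- one step of the product. -/
theorem kstep {k : H → ℂ} {τ : ℝ}
    (hinv : ∀ l ∈ L, ∀ g, k (l * g) = k g ∧ k (g * l) = k g)
    (hfin : {y : H ⧸ L | k y.out ≠ 0}.Finite) (hnorm : NormLE L k τ)
    (c : H ⧸ L → ℂ) (hcf : (Function.support c).Finite) :
    ∃ d : H ⧸ L → ℂ, (Function.support d).Finite ∧
      (∀ y, d y ≠ 0 → ∃ (x : H ⧸ L) (g : H), c x ≠ 0 ∧ k g ≠ 0 ∧
        y = QuotientGroup.mk (x.out * g)) ∧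
      ∑ᶠ y, ‖d y‖ ^ 2 ≤ τ ^ 2 * ∑ᶠ y, ‖c y‖ ^ 2 ∧
      ∀ F : H ⧸ L → ℂ, ∑ᶠ y, d y * F y = ∑ᶠ y, c y * kop L k F y := by
  classical
  set S : Finset (H ⧸ L) := hcf.toFinset with hS
  have hSm : ∀ x, x ∈ S ↔ c x ≠ 0 := by intro x; rw [hS, Set.Finite.mem_toFinset]; rfl
  -- the sections of the kernel are finite
  have hsec : ∀ x : H ⧸ L, {y : H ⧸ L | k (x.out⁻¹ * y.out) ≠ 0}.Finite := by
    intro x
    have hinj : Set.InjOn (fun y : H ⧸ L => x.out⁻¹ • y)
        ((fun y : H ⧸ L => x.out⁻¹ • y) ⁻¹' {y : H ⧸ L | k y.out ≠ 0}) :=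
      fun a _ b _ h => smul_left_cancel _ h
    refine (hfin.preimage hinj).subset ?_
    intro y hy
    have h1 : x.out⁻¹ • y = (QuotientGroup.mk (x.out⁻¹ * y.out) : H ⧸ L) := by
      conv_lhs => rw [← QuotientGroup.out_eq' y]
      rfl
    have h2 := H26.ker_out L k hinv 1 (x.out⁻¹ * y.out)
    simp only [one_mul] at h2
    show k (x.out⁻¹ • y : H ⧸ L).out ≠ 0
    rw [h1, h2]
    exact hy
  set T : Finset (H ⧸ L) := S.biUnion (fun x => (hsec x).toFinset) with hT
  let d : H ⧸ L → ℂ := fun y => ∑ x ∈ S, c x * k (x.out⁻¹ * y.out)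
  have hdT : ∀ y, d y ≠ 0 → y ∈ T := by
    intro y hy
    obtain ⟨x, hx, hx'⟩ := Finset.exists_ne_zero_of_sum_ne_zero hy
    rw [hT, Finset.mem_biUnion]
    exact ⟨x, hx, by rw [Set.Finite.mem_toFinset]; exact right_ne_zero_of_mul hx'⟩
  have hdsub : Function.support d ⊆ (T : Set (H ⧸ L)) := fun y hy => hdT y hy
  refine ⟨d, T.finite_toSet.subset hdsub, ?_, ?_, ?_⟩
  · intro y hy
    obtain ⟨x, hx, hx'⟩ := Finset.exists_ne_zero_of_sum_ne_zero hy
    refine ⟨x, x.out⁻¹ * y.out, left_ne_zero_of_mul hx', right_ne_zero_of_mul hx', ?_⟩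
    rw [mul_inv_cancel_left, QuotientGroup.out_eq']
  · -- the norm
    have hn1 : ∑ᶠ y, ‖c y‖ ^ 2 = ∑ x ∈ S, ‖c x‖ ^ 2 := by
      apply finsum_eq_sum_of_support_subset
      intro x hx
      rw [Finset.mem_coe, hSm]
      intro h
      exact hx (by simp [h])
    have hn2 : ∑ᶠ y, ‖d y‖ ^ 2 = ∑ y ∈ T, ‖d y‖ ^ 2 := by
      apply finsum_eq_sum_of_support_subset
      intro y hy
      refine hdT y ?_
      intro h
      exact hy (by simp [h])
    rw [hn1, hn2]
    set A := ∑ x ∈ S, ‖c x‖ ^ 2 with hA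
    set B := ∑ y ∈ T, ‖d y‖ ^ 2 with hB
    have hA0 : 0 ≤ A := Finset.sum_nonneg fun _ _ => by positivity
    have hB0 : 0 ≤ B := Finset.sum_nonneg fun _ _ => by positivity
    have h1 := hnorm S T (fun y => (starRingEnd ℂ) (d y))
    simp only [RCLike.norm_conj] at h1
    rw [← hB] at h1
    have h2 : (B : ℂ) = ∑ x ∈ S, c x * ∑ y ∈ T, k (x.out⁻¹ * y.out) * (starRingEnd ℂ) (d y) := by
      have : (B : ℂ) = ∑ y ∈ T, d y * (starRingEnd ℂ) (d y) := by
        rw [hB]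
        push_cast
        refine Finset.sum_congr rfl fun y _ => ?_
        rw [Complex.mul_conj, Complex.normSq_eq_norm_sq]
        push_cast
        rfl
      rw [this]
      simp only [d, Finset.sum_mul]
      rw [Finset.sum_comm]
      refine Finset.sum_congr rfl fun x _ => ?_
      rw [Finset.mul_sum]
      refine Finset.sum_congr rfl fun y _ => ?_
      ring
    have h3 : B ≤ ∑ x ∈ S, ‖c x‖ * ‖∑ y ∈ T, k (x.out⁻¹ * y.out) * (starRingEnd ℂ) (d y)‖ := by
      have : B = ‖(B : ℂ)‖ := by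
        rw [Complex.norm_real, Real.norm_of_nonneg hB0]
      rw [this, h2]
      refine (norm_sum_le _ _).trans (Finset.sum_le_sum fun x _ => ?_)
      rw [norm_mul]
    have h4 : B ^ 2 ≤ A * (τ ^ 2 * B) := by
      have h5 := Finset.sum_mul_sq_le_sq_mul_sq S (fun x => ‖c x‖)
        (fun x => ‖∑ y ∈ T, k (x.out⁻¹ * y.out) * (starRingEnd ℂ) (d y)‖)
      calc B ^ 2 ≤ (∑ x ∈ S, ‖c x‖ *
          ‖∑ y ∈ T, k (x.out⁻¹ * y.out) * (starRingEnd ℂ) (d y)‖) ^ 2 := by
            apply pow_le_pow_left₀ hB0 h3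
        _ ≤ _ := h5
        _ ≤ A * (τ ^ 2 * B) := by
            apply mul_le_mul_of_nonneg_left h1 hA0
    rcases hB0.eq_or_lt with h0 | h0
    · rw [← h0]; positivity
    · have : B * B ≤ (τ ^ 2 * A) * B := by nlinarith
      exact le_of_mul_le_mul_right this h0
  · intro F
    have h1 : ∑ᶠ y, c y * kop L k F y = ∑ x ∈ S, c x * kop L k F x := by
      apply finsum_eq_sum_of_support_subset
      intro x hx
      rw [Finset.mem_coe, hSm]
      intro h
      exact hx (by simp [h])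
    have h2 : ∑ᶠ y, d y * F y = ∑ y ∈ T, d y * F y := by
      apply finsum_eq_sum_of_support_subset
      intro y hy
      refine hdT y ?_
      intro h
      exact hy (by simp [h])
    have h3 : ∀ x ∈ S, kop L k F x = ∑ y ∈ T, k (x.out⁻¹ * y.out) * F y := by
      intro x hx
      apply finsum_eq_sum_of_support_subset
      intro y hy
      rw [Finset.mem_coe, hT, Finset.mem_biUnion]
      exact ⟨x, hx, by rw [Set.Finite.mem_toFinset]; exact left_ne_zero_of_mul hy⟩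
    rw [h1, h2]
    simp only [d, Finset.sum_mul]
    rw [Finset.sum_comm]
    refine Finset.sum_congr rfl fun x hx => ?_
    rw [h3 x hx, Finset.mul_sum]
    exact Finset.sum_congr rfl fun y _ => by ring

/-- (KER2) products of kernels. -/
theorem ker2 {τ : ℝ} (ks : List (H → ℂ))
    (hks : ∀ k ∈ ks, (∀ l ∈ L, ∀ g, k (l * g) = k g ∧ k (g * l) = k g) ∧
      {y : H ⧸ L | k y.out ≠ 0}.Finite ∧ NormLE L k τ) :
    ∃ c : H ⧸ L → ℂ, (Function.support c).Finite ∧
      (∀ y, c y ≠ 0 → ∃ gs : List H, gs.length = ks.length ∧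
        (∀ g ∈ gs, ∃ k ∈ ks, k g ≠ 0) ∧ y = QuotientGroup.mk gs.prod) ∧
      ∑ᶠ y, ‖c y‖ ^ 2 ≤ τ ^ (2 * ks.length) ∧
      ∀ F : H ⧸ L → ℂ, ∑ᶠ y, c y * F y = kopl L ks F (QuotientGroup.mk 1) := by
  classical
  induction ks with
  | nil =>
    refine ⟨fun y => if y = QuotientGroup.mk 1 then 1 else 0, ?_, ?_, ?_, ?_⟩
    · refine (Set.finite_singleton (QuotientGroup.mk 1 : H ⧸ L)).subset ?_
      intro y hy
      by_contra h
      exact hy (if_neg h)
    · intro y hy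
      by_cases h : y = QuotientGroup.mk 1
      · exact ⟨[], rfl, by simp, by simpa using h⟩
      · simp [h] at hy
    · rw [finsum_eq_single _ (QuotientGroup.mk 1 : H ⧸ L) (fun y hy => by simp [hy])]
      simp
    · intro F
      rw [finsum_eq_single _ (QuotientGroup.mk 1 : H ⧸ L) (fun y hy => by simp [hy])]
      simp [kopl]
  | cons k ks ih =>
    obtain ⟨c, hcf, hcs, hcn, hce⟩ := ih (fun k' hk' => hks k' (List.mem_cons_of_mem _ hk'))
    obtain ⟨hinv, hfin, hnorm⟩ := hks k List.mem_cons_self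
    obtain ⟨d, hdf, hds, hdn, hde⟩ := kstep hinv hfin hnorm c hcf
    refine ⟨d, hdf, ?_, ?_, ?_⟩
    · intro y hy
      obtain ⟨x, g, hx, hg, hxy⟩ := hds y hy
      obtain ⟨gs, hg1, hg2, hg3⟩ := hcs x hx
      obtain ⟨l, hl⟩ := QuotientGroup.mk_out_eq_mul L gs.prod
      rw [← hg3] at hl
      refine ⟨gs ++ [(l : H) * g], by simp [hg1], ?_, ?_⟩
      · intro g' hg'
        rcases List.mem_append.mp hg' with h | h
        · obtain ⟨k', hk', hkg⟩ := hg2 g' h
          exact ⟨k', List.mem_cons_of_mem _ hk', hkg⟩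
        · refine ⟨k, List.mem_cons_self, ?_⟩
          rw [List.mem_singleton.mp h, (hinv _ l.2 _).1]
          exact hg
      · rw [List.prod_append, List.prod_singleton, ← mul_assoc, ← hl, hxy]
    · refine hdn.trans ?_
      calc τ ^ 2 * ∑ᶠ y, ‖c y‖ ^ 2 ≤ τ ^ 2 * τ ^ (2 * ks.length) :=
            mul_le_mul_of_nonneg_left hcn (by positivity)
        _ = τ ^ (2 * (k :: ks).length) := by rw [List.length_cons]; ring
    · intro F
      rw [hde F, hce]
      rfl

end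

end Pool.Agent.DEN.H6
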